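import Mathlib

/-!
# Type clones: orbits, oligomorphic groups and a compactness principle

Everything in this file is about a subgroup `G` of the symmetric group of a countable set `D`.
-/

namespace Pool.Agent.MP_f99268_lc

open Equiv Classical

variable {D : Type}

/-- The elements of `G` that fix every point of the finite set `c`. -/
def st (G : Subgroup (Perm D)) (c : Finset D) : Subgroup (Perm D) :=
  G ⊓ fixingSubgroup (Perm D) (c : Set D)

theorem mem_st {G : Subgroup (Perm D)} {c : Finset D} {g : Perm D} :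
    g ∈ st G c ↔ g ∈ G ∧ ∀ a ∈ c, g a = a := by
  unfold st
  rw [Subgroup.mem_inf, mem_fixingSubgroup_iff]
  rfl

theorem st_le {G : Subgroup (Perm D)} {c : Finset D} : st G c ≤ G := inf_le_left

theorem st_mono {G : Subgroup (Perm D)} {c c' : Finset D} (h : c ⊆ c') : st G c' ≤ st G c := by
  intro g hg
  rw [mem_st] at hg ⊢
  exact ⟨hg.1, fun a ha => hg.2 a (h ha)⟩

theorem st_st {G : Subgroup (Perm D)} {c c' : Finset D} : st (st G c) c' = st G (c ∪ c') := by
  ext g
  simp only [mem_st, Finset.mem_union]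
  constructor
  · rintro ⟨⟨h1, h2⟩, h3⟩
    exact ⟨h1, fun a ha => ha.elim (h2 a) (h3 a)⟩
  · rintro ⟨h1, h2⟩
    exact ⟨⟨h1, fun a ha => h2 a (Or.inl ha)⟩, fun a ha => h2 a (Or.inr ha)⟩

theorem st_empty {G : Subgroup (Perm D)} : st G ∅ = G := by
  ext g
  simp [mem_st]

/-- Two families of points are in the same orbit of the pointwise stabiliser of `c`. -/
def Orb (G : Subgroup (Perm D)) (c : Finset D) {α : Type*} (x y : α → D) : Prop :=
  ∃ g ∈ st G c, ∀ i, g (x i) = y i

section Orb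

variable {G : Subgroup (Perm D)} {c c' : Finset D} {α β : Type*} {x y z : α → D}

theorem Orb.refl (x : α → D) : Orb G c x x := ⟨1, (st G c).one_mem, fun _ => rfl⟩

theorem Orb.symm (h : Orb G c x y) : Orb G c y x := by
  obtain ⟨g, hg, h⟩ := h
  refine ⟨g⁻¹, (st G c).inv_mem hg, fun i => ?_⟩
  rw [← h i]; simp

theorem Orb.trans (h : Orb G c x y) (h' : Orb G c y z) : Orb G c x z := by
  obtain ⟨g, hg, h⟩ := h
  obtain ⟨g', hg', h'⟩ := h'
  refine ⟨g' * g, (st G c).mul_mem hg' hg, fun i => ?_⟩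
  rw [← h' i, ← h i]; rfl

theorem Orb.mono (hc : c ⊆ c') (h : Orb G c' x y) : Orb G c x y := by
  obtain ⟨g, hg, h⟩ := h
  exact ⟨g, st_mono hc hg, h⟩

theorem Orb.comp (h : Orb G c x y) (s : β → α) : Orb G c (fun b => x (s b)) (fun b => y (s b)) := by
  obtain ⟨g, hg, h⟩ := h
  exact ⟨g, hg, fun i => h (s i)⟩

theorem Orb.of_mem {g : Perm D} (hg : g ∈ st G c) (x : α → D) : Orb G c x (fun i => g (x i)) :=
  ⟨g, hg, fun _ => rfl⟩

theorem Orb.to_empty (h : Orb G c x y) : Orb G ∅ x y := h.mono (Finset.empty_subset _)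

end Orb

/-- Finitely many orbits on points, also after fixing finitely many points. -/
def Olig (G : Subgroup (Perm D)) : Prop :=
  ∀ c : Finset D, ∃ T : Finset D, ∀ x : D, ∃ g ∈ st G c, g x ∈ T

theorem Olig.st {G : Subgroup (Perm D)} (h : Olig G) (c : Finset D) : Olig (st G c) := by
  intro c'
  obtain ⟨T, hT⟩ := h (c ∪ c')
  refine ⟨T, fun x => ?_⟩
  rw [st_st]
  exact hT x

theorem Olig.fin {G : Subgroup (Perm D)} (h : Olig G) (c : Finset D) (n : ℕ) :
    ∃ T : Finset (Fin n → D), ∀ x : Fin n → D, ∃ g ∈ MP_f99268_lc.st G c, (fun i => g (x i)) ∈ T := by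
  induction n with
  | zero =>
    refine ⟨{fun i => i.elim0}, fun x => ⟨1, Subgroup.one_mem _, ?_⟩⟩
    rw [Finset.mem_singleton]
    funext i
    exact i.elim0
  | succ n ih =>
    obtain ⟨T, hT⟩ := ih
    choose S hS using fun t : Fin n → D => h (c ∪ Finset.univ.image t)
    refine ⟨T.biUnion fun t => (S t).image fun y => (Fin.snoc t y : Fin (n + 1) → D), fun x => ?_⟩
    obtain ⟨g, hg, hgT⟩ := hT (fun i => x i.castSucc)
    obtain ⟨g', hg', hgS⟩ := hS (fun i => g (x i.castSucc)) (g (x (Fin.last n)))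
    have hg'1 := hg'
    rw [mem_st] at hg'1
    refine ⟨g' * g, Subgroup.mul_mem _ (st_mono Finset.subset_union_left hg') hg, ?_⟩
    rw [Finset.mem_biUnion]
    refine ⟨_, hgT, ?_⟩
    rw [Finset.mem_image]
    refine ⟨_, hgS, ?_⟩
    funext i
    refine Fin.lastCases ?_ (fun i => ?_) i
    · simp
    · simp only [Fin.snoc_castSucc, Perm.coe_mul, Function.comp_apply]
      symm
      apply hg'1.2
      apply Finset.mem_union_right
      rw [Finset.mem_image]
      exact ⟨i, Finset.mem_univ _, rfl⟩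

theorem Olig.finite {G : Subgroup (Perm D)} (h : Olig G) (c : Finset D) (α : Type*) [Finite α] :
    ∃ T : Set (α → D), T.Finite ∧ ∀ x : α → D, ∃ g ∈ MP_f99268_lc.st G c, (fun i => g (x i)) ∈ T := by
  obtain ⟨n, ⟨e⟩⟩ := Finite.exists_equiv_fin α
  obtain ⟨T, hT⟩ := h.fin c n
  refine ⟨(fun t : Fin n → D => fun a => t (e a)) '' (T : Set (Fin n → D)),
    T.finite_toSet.image _, fun x => ?_⟩
  obtain ⟨g, hg, hgT⟩ := hT (fun i => x (e.symm i))
  refine ⟨g, hg, ?_⟩
  refine ⟨_, hgT, ?_⟩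
  funext a
  simp

/-- One step of the compactness argument. -/
theorem compact_step {X : Type*} (H : Subgroup (Perm D)) (hH : Olig H)
    (P : ℕ → (X → D) → Prop)
    (hanti : ∀ n f, P (n + 1) f → P n f)
    (hinv : ∀ n f, ∀ h ∈ H, P n f → P n (fun x => h (f x)))
    (U V : Finset X) (f : X → D)
    (hf : ∀ m, ∃ f', P m f' ∧ ∀ x ∈ U, f' x = f x) :
    ∃ f₁ : X → D, (∀ x ∈ U, f₁ x = f x) ∧ ∀ m, ∃ f', P m f' ∧ ∀ x ∈ V, f' x = f₁ x := by
  have hanti' : ∀ m n f, m ≤ n → P n f → P m f := by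
    intro m n f hmn
    induction n, hmn using Nat.le_induction with
    | base => exact id
    | succ n _ ih => exact fun h => ih (hanti _ _ h)
  choose F hF hFU using hf
  obtain ⟨T, hTfin, hT⟩ := hH.finite (U.image f) {x // x ∈ V}
  choose h hh hhT using fun m => hT (fun x => F m x)
  have hinf : ∃ t : {x // x ∈ V} → D, ∀ N, ∃ m, N ≤ m ∧ (fun x : {x // x ∈ V} => h m (F m x)) = t := by
    by_contra hcon
    push Not at hcon
    choose N hN using hcon
    obtain ⟨M, hM⟩ : ∃ M, ∀ t ∈ T, N t ≤ M := by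
      obtain ⟨M, hM⟩ := (hTfin.image N).bddAbove
      exact ⟨M, fun t ht => hM ⟨t, ht, rfl⟩⟩
    exact hN _ M (hM _ (hhT M)) rfl
  obtain ⟨t, ht⟩ := hinf
  obtain ⟨m0, -, hm0⟩ := ht 0
  refine ⟨fun x => h m0 (F m0 x), fun x hx => ?_, fun m => ?_⟩
  · have h1 := (mem_st.1 (hh m0)).2 (f x) (Finset.mem_image_of_mem f hx)
    show h m0 (F m0 x) = f x
    rw [hFU m0 x hx, h1]
  · obtain ⟨m', hm', he⟩ := ht m
    refine ⟨fun x => h m' (F m' x), ?_, fun x hx => ?_⟩
    · exact hanti' _ _ _ hm' (hinv _ _ _ (st_le (hh m')) (hF m'))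
    · have := congrFun (he.trans hm0.symm) ⟨x, hx⟩
      exact this

/-- Compactness: a function all of whose finite parts satisfy given conditions. -/
theorem compactness {X : Type*} (S : ℕ → Finset X) (hS : ∀ n, S n ⊆ S (n + 1))
    (hcov : ∀ x, ∃ n, x ∈ S n) (H : Subgroup (Perm D)) (hH : Olig H)
    (P : ℕ → (X → D) → Prop)
    (hdep : ∀ n f f', (∀ x ∈ S n, f x = f' x) → P n f → P n f')
    (hanti : ∀ n f, P (n + 1) f → P n f)
    (hinv : ∀ n f, ∀ h ∈ H, P n f → P n (fun x => h (f x)))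
    (hsat : ∀ n, ∃ f, P n f) : ∃ f, ∀ n, P n f := by
  have hSm : ∀ m n, m ≤ n → S m ⊆ S n := by
    intro m n hmn
    induction n, hmn using Nat.le_induction with
    | base => exact subset_rfl
    | succ n _ ih => exact ih.trans (hS n)
  have hstep := compact_step H hH P hanti hinv
  -- the good functions at level n
  let Good : ℕ → (X → D) → Prop := fun n f => ∀ m, ∃ f', P m f' ∧ ∀ x ∈ S n, f' x = f x
  have h0 : ∃ f, Good 0 f := by
    obtain ⟨f, -⟩ := hsat 0
    obtain ⟨f₁, -, h⟩ := hstep ∅ (S 0) f (fun m => by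
      obtain ⟨f', hf'⟩ := hsat m
      exact ⟨f', hf', by simp⟩)
    exact ⟨f₁, h⟩
  have h1 : ∀ n f, Good n f → ∃ f₁, (∀ x ∈ S n, f₁ x = f x) ∧ Good (n + 1) f₁ := by
    intro n f hf
    exact hstep (S n) (S (n + 1)) f hf
  obtain ⟨f0, hf0⟩ := h0
  choose! nx hnx1 hnx2 using h1
  let seq : ℕ → (X → D) := fun n => Nat.rec f0 (fun n f => nx n f) n
  have hgood : ∀ n, Good n (seq n) := by
    intro n
    induction n with
    | zero => exact hf0
    | succ n ih => exact hnx2 n _ ih
  have hagree : ∀ n x, x ∈ S n → seq (n + 1) x = seq n x := by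
    intro n x hx
    exact hnx1 n _ (hgood n) x hx
  have hagree' : ∀ m n, m ≤ n → ∀ x ∈ S m, seq n x = seq m x := by
    intro m n hmn
    induction n, hmn using Nat.le_induction with
    | base => intro x _; rfl
    | succ n hn ih => intro x hx; rw [hagree n x (hSm m n hn hx), ih x hx]
  choose N hN using hcov
  refine ⟨fun x => seq (N x) x, fun n => ?_⟩
  obtain ⟨f', hf', he⟩ := hgood n n
  refine hdep n f' _ (fun x hx => ?_) hf'
  rw [he x hx]
  rcases le_total n (N x) with h | h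
  · exact (hagree' n (N x) h x hx).symm
  · exact hagree' (N x) n h x (hN x)

/-- An exhausting sequence of finite sets. -/
theorem exists_exhaustion (D : Type) [Countable D] :
    ∃ A : ℕ → Finset D, (∀ n, A n ⊆ A (n + 1)) ∧ ∀ S : Finset D, ∃ n, S ⊆ A n := by
  obtain ⟨f, hf⟩ := exists_injective_nat D
  have hfin : ∀ n : ℕ, {x : D | f x < n}.Finite := by
    intro n
    apply Set.Finite.of_finite_image (f := f)
    · exact (Set.finite_lt_nat n).subset (by rintro _ ⟨x, hx, rfl⟩; exact hx)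
    · exact hf.injOn
  refine ⟨fun n => (hfin n).toFinset, fun n x hx => ?_, fun S => ?_⟩
  · simp only [Set.Finite.mem_toFinset, Set.mem_ofPred_eq] at hx ⊢
    omega
  · refine ⟨(S.sup f) + 1, fun x hx => ?_⟩
    simp only [Set.Finite.mem_toFinset, Set.mem_ofPred_eq]
    exact Nat.lt_succ_of_le (Finset.le_sup (f := f) hx)

end Pool.Agent.MP_f99268_lc
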