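import Pool.Agent.Lib.MP_f99268_lc.Ramsey

/-!
# Canonical functions and canonisation
-/

namespace Pool.Agent.MP_f99268_lc

open Equiv Classical

variable {D : Type}

/-- `F` is canonical from the structure with constants `c₀` to the one with constants `c`. -/
def Can (G : Subgroup (Perm D)) (c₀ c : Finset D) {k : ℕ} (F : (Fin k → D) → D) : Prop :=
  ∀ (m : ℕ) (x y : Fin k → Fin m → D), (∀ j, Orb G c₀ (x j) (y j)) →
    Orb G c (fun l => F (fun j => x j l)) (fun l => F (fun j => y j l))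

theorem Can.fin {G : Subgroup (Perm D)} {c₀ c : Finset D} {k : ℕ} {F : (Fin k → D) → D}
    (h : Can G c₀ c F) {α : Type*} [Finite α] (x y : Fin k → α → D)
    (hxy : ∀ j, Orb G c₀ (x j) (y j)) :
    Orb G c (fun l => F (fun j => x j l)) (fun l => F (fun j => y j l)) := by
  obtain ⟨n, ⟨e⟩⟩ := Finite.exists_equiv_fin α
  have := (h n (fun j l => x j (e.symm l)) (fun j l => y j (e.symm l))
    (fun j => (hxy j).comp e.symm)).comp e
  simpa using this

theorem Can.mono {G : Subgroup (Perm D)} {c₀ c₀' c c' : Finset D} {k : ℕ} {F : (Fin k → D) → D}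
    (h : Can G c₀ c F) (h₀ : c₀ ⊆ c₀') (h₁ : c' ⊆ c) : Can G c₀' c' F :=
  fun m x y hxy => (h m x y (fun j => (hxy j).mono h₀)).mono h₁

/-- Self-embeddings: limits of elements of `G`. -/
def Emb (G : Subgroup (Perm D)) (e : D → D) : Prop :=
  ∀ A : Finset D, ∃ g ∈ G, ∀ a ∈ A, e a = g a

theorem Emb.orb {G : Subgroup (Perm D)} {e : D → D} (h : Emb G e) {α : Type*} [Finite α]
    (x : α → D) : Orb G ∅ x (fun i => e (x i)) := by
  obtain ⟨g, hg, hA⟩ := h (Set.finite_range x).toFinset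
  refine ⟨g, by rwa [st_empty], fun i => ?_⟩
  exact (hA (x i) (by simp)).symm

theorem Emb.of_mem {G : Subgroup (Perm D)} {g : Perm D} (hg : g ∈ G) : Emb G g :=
  fun _ => ⟨g, hg, fun _ _ => rfl⟩

/-- Unary canonical maps. -/
def CanU (G : Subgroup (Perm D)) (c₀ c : Finset D) (e : D → D) : Prop :=
  ∀ (m : ℕ) (x y : Fin m → D), Orb G c₀ x y → Orb G c (fun l => e (x l)) (fun l => e (y l))

theorem CanU.fin {G : Subgroup (Perm D)} {c₀ c : Finset D} {e : D → D} (h : CanU G c₀ c e)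
    {α : Type*} [Finite α] (x y : α → D) (hxy : Orb G c₀ x y) :
    Orb G c (fun l => e (x l)) (fun l => e (y l)) := by
  obtain ⟨n, ⟨f⟩⟩ := Finite.exists_equiv_fin α
  have := (h n (fun l => x (f.symm l)) (fun l => y (f.symm l)) (hxy.comp f.symm)).comp f
  simpa using this

theorem CanU.comp_can {G : Subgroup (Perm D)} {c₀ c c' : Finset D} {e : D → D} {k : ℕ}
    {F : (Fin k → D) → D} (he : CanU G c c' e) (hF : Can G c₀ c F) :
    Can G c₀ c' (fun x => e (F x)) :=
  fun m x y hxy => he m _ _ (hF m x y hxy)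

theorem Can.comp_canU {G : Subgroup (Perm D)} {c₀ c c' : Finset D} {k : ℕ}
    {u : Fin k → D → D} {F : (Fin k → D) → D} (hF : Can G c c' F) (hu : ∀ j, CanU G c₀ c (u j)) :
    Can G c₀ c' (fun x => F (fun j => u j (x j))) :=
  fun m x y hxy => hF m (fun j l => u j (x j l)) (fun j l => u j (y j l))
    (fun j => hu j m _ _ (hxy j))

theorem Can.comp_can {G : Subgroup (Perm D)} {c₀ c c' : Finset D} {k n : ℕ}
    {K : Fin n → (Fin k → D) → D} {F : (Fin n → D) → D} (hF : Can G c c' F)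
    (hK : ∀ j, Can G c₀ c (K j)) :
    Can G c₀ c' (fun x => F (fun j => K j x)) :=
  fun m x y hxy => hF m (fun j l => K j (fun i => x i l)) (fun j l => K j (fun i => y i l))
    (fun j => hK j m _ _ hxy)

theorem Can.proj (G : Subgroup (Perm D)) (c : Finset D) {k : ℕ} (i : Fin k) :
    Can G c c (fun x : Fin k → D => x i) :=
  fun _ _ _ hxy => hxy i

theorem CanU.can {G : Subgroup (Perm D)} {c₀ c : Finset D} {e : D → D} (h : CanU G c₀ c e)
    {k : ℕ} (i : Fin k) : Can G c₀ c (fun x : Fin k → D => e (x i)) :=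
  fun _ _ _ hxy => h _ _ _ (hxy i)

/-- A locally closed clone containing `G`. -/
structure IsClone (G : Subgroup (Perm D)) (C : (k : ℕ) → Set ((Fin k → D) → D)) : Prop where
  proj : ∀ k (i : Fin k), (fun x : Fin k → D => x i) ∈ C k
  comp : ∀ n m (f : (Fin n → D) → D) (g : Fin n → (Fin m → D) → D), f ∈ C n →
    (∀ i, g i ∈ C m) → (fun x => f (fun i => g i x)) ∈ C m
  aut : ∀ g ∈ G, (fun x : Fin 1 → D => g (x 0)) ∈ C 1
  closed : ∀ k (F : (Fin k → D) → D),
    (∀ A : Finset D, ∃ F' ∈ C k, ∀ x : Fin k → D, (∀ j, x j ∈ A) → F x = F' x) → F ∈ C k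

section Clone

variable {G : Subgroup (Perm D)} {C : (k : ℕ) → Set ((Fin k → D) → D)}

theorem IsClone.aut_comp (hC : IsClone G C) {k : ℕ} {F : (Fin k → D) → D} (hF : F ∈ C k)
    {g : Perm D} (hg : g ∈ G) : (fun x => g (F x)) ∈ C k :=
  hC.comp 1 k _ (fun _ => F) (hC.aut g hg) (fun _ => hF)

theorem IsClone.comp_aut (hC : IsClone G C) {k : ℕ} {F : (Fin k → D) → D} (hF : F ∈ C k)
    {β : Fin k → Perm D} (hβ : ∀ j, β j ∈ G) : (fun x => F (fun j => β j (x j))) ∈ C k :=
  hC.comp k k F (fun j x => β j (x j)) hF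
    (fun j => hC.aut_comp (hC.proj k j) (hβ j))

theorem IsClone.local (hC : IsClone G C) {k : ℕ} {F K : (Fin k → D) → D} (hF : F ∈ C k)
    (hK : ∀ A : Finset D, ∃ β : Fin k → Perm D, (∀ j, β j ∈ G) ∧ ∃ η ∈ G,
      ∀ x : Fin k → D, (∀ j, x j ∈ A) → K x = η (F (fun j => β j (x j)))) : K ∈ C k := by
  apply hC.closed
  intro A
  obtain ⟨β, hβ, η, hη, h⟩ := hK A
  exact ⟨_, hC.aut_comp (hC.comp_aut hF hβ) hη, h⟩

theorem IsClone.emb_comp (hC : IsClone G C) {k : ℕ} {F : (Fin k → D) → D} (hF : F ∈ C k)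
    {e : D → D} (he : Emb G e) : (fun x => e (F x)) ∈ C k := by
  apply hC.closed
  intro A
  obtain ⟨g, hg, h⟩ := he ((Fintype.piFinset fun _ : Fin k => A).image F)
  refine ⟨_, hC.aut_comp hF hg, fun x hx => ?_⟩
  exact h _ (Finset.mem_image_of_mem _ (Fintype.mem_piFinset.2 hx))

theorem IsClone.comp_emb (hC : IsClone G C) {k : ℕ} {F : (Fin k → D) → D} (hF : F ∈ C k)
    {u : Fin k → D → D} (hu : ∀ j, Emb G (u j)) : (fun x => F (fun j => u j (x j))) ∈ C k := by
  apply hC.closed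
  intro A
  choose g hg h using fun j => hu j A
  refine ⟨_, hC.comp_aut hF hg, fun x hx => ?_⟩
  have e : (fun j => u j (x j)) = fun j => g j (x j) := by
    funext j
    exact h j _ (hx j)
  show F (fun j => u j (x j)) = F (fun j => g j (x j))
  rw [e]

end Clone

/-- The index set of the finite parts. -/
noncomputable def fset (I : Type) [Fintype I] (p : ℕ) (A : Finset D) : Finset (I × (Fin p → D)) :=
  Finset.univ ×ˢ Fintype.piFinset (fun _ => A)

theorem mem_fset {I : Type} [Fintype I] {p : ℕ} {A : Finset D} {x : I × (Fin p → D)} :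
    x ∈ fset I p A ↔ ∀ j, x.2 j ∈ A := by
  simp [fset]

/-- The canonisation theorem. -/
theorem canonisation [Countable D] {G : Subgroup (Perm D)} (hR : FR G Bool) (hO : Olig G)
    (c₀ c' : Finset D) (I : Type) [Finite I] (p : ℕ) (F : I → (Fin p → D) → D) :
    ∃ K : I → (Fin p → D) → D,
      (∀ A : Finset D, ∃ β : Fin p → Perm D, (∀ j, β j ∈ st G c₀) ∧ ∃ η ∈ st G c',
        ∀ i (x : Fin p → D), (∀ j, x j ∈ A) → K i x = η (F i (fun j => β j (x j)))) ∧
      ∀ (m : ℕ) (x y : Fin p → Fin m → D), (∀ j, Orb G c₀ (x j) (y j)) →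
        Orb G c' (fun il : I × Fin m => K il.1 (fun j => x j il.2))
          (fun il : I × Fin m => K il.1 (fun j => y j il.2)) := by
  have : Fintype I := Fintype.ofFinite I
  obtain ⟨A, hA1, hA2⟩ := exists_exhaustion D
  let P : ℕ → ((I × (Fin p → D)) → D) → Prop := fun n K =>
    ∃ β : Fin p → Perm D, (∀ j, β j ∈ st G c₀) ∧ ∃ η ∈ st G c',
      (∀ i (x : Fin p → D), (∀ j, x j ∈ A n) → K (i, x) = η (F i (fun j => β j (x j)))) ∧
      ∀ (m : ℕ) (x y : Fin p → Fin m → D), (∀ j l, x j l ∈ A n) → (∀ j l, y j l ∈ A n) →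
        (∀ j, Orb G c₀ (x j) (y j)) →
        Orb G c' (fun il : I × Fin m => F il.1 (fun j => β j (x j il.2)))
          (fun il : I × Fin m => F il.1 (fun j => β j (y j il.2)))
  obtain ⟨K, hK⟩ := compactness (fun n => fset I p (A n))
    (fun n x hx => by
      rw [mem_fset] at hx ⊢
      exact fun j => hA1 n (hx j))
    (fun x => by
      obtain ⟨n, hn⟩ := hA2 (Finset.univ.image x.2)
      refine ⟨n, ?_⟩
      rw [mem_fset]
      exact fun j => hn (Finset.mem_image_of_mem _ (Finset.mem_univ _)))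
    (st G c') (hO.st c') P
    (fun n f f' hff' ⟨β, hβ, η, hη, h1, h2⟩ => ⟨β, hβ, η, hη, fun i x hx => by
      rw [← hff' (i, x) (by rw [mem_fset]; exact hx)]
      exact h1 i x hx, h2⟩)
    (fun n f ⟨β, hβ, η, hη, h1, h2⟩ => ⟨β, hβ, η, hη,
      fun i x hx => h1 i x (fun j => hA1 n (hx j)),
      fun m x y hx hy => h2 m x y (fun j l => hA1 n (hx j l)) (fun j l => hA1 n (hy j l))⟩)
    (fun n f h hh ⟨β, hβ, η, hη, h1, h2⟩ => ⟨β, hβ, h * η, Subgroup.mul_mem _ hh hη,
      fun i x hx => congrArg h (h1 i x hx), h2⟩)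
    (fun n => by
      obtain ⟨β, hβ, h⟩ := canon_finite hR hO c₀ c' I p F (A n)
      exact ⟨fun ix => F ix.1 (fun j => β j (ix.2 j)), β, hβ, 1, Subgroup.one_mem _,
        fun i x _ => rfl, h⟩)
  refine ⟨fun i x => K (i, x), ?_, ?_⟩
  · intro B
    obtain ⟨n, hn⟩ := hA2 B
    obtain ⟨β, hβ, η, hη, h1, -⟩ := hK n
    exact ⟨β, hβ, η, hη, fun i x hx => h1 i x (fun j => hn (hx j))⟩
  · intro m x y hxy
    obtain ⟨n, hn⟩ := hA2 (Finset.univ.image (fun jl : Fin p × Fin m => x jl.1 jl.2) ∪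
      Finset.univ.image (fun jl : Fin p × Fin m => y jl.1 jl.2))
    have hx : ∀ j l, x j l ∈ A n := fun j l => hn (Finset.mem_union_left _
      (Finset.mem_image.2 ⟨(j, l), Finset.mem_univ _, rfl⟩))
    have hy : ∀ j l, y j l ∈ A n := fun j l => hn (Finset.mem_union_right _
      (Finset.mem_image.2 ⟨(j, l), Finset.mem_univ _, rfl⟩))
    obtain ⟨β, hβ, η, hη, h1, h2⟩ := hK n
    have h3 := h2 m x y hx hy hxy
    have e1 : (fun il : I × Fin m => K (il.1, fun j => x j il.2)) =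
        fun il : I × Fin m => η (F il.1 (fun j => β j (x j il.2))) := by
      funext il
      exact h1 il.1 _ (fun j => hx j il.2)
    have e2 : (fun il : I × Fin m => K (il.1, fun j => y j il.2)) =
        fun il : I × Fin m => η (F il.1 (fun j => β j (y j il.2))) := by
      funext il
      exact h1 il.1 _ (fun j => hy j il.2)
    show Orb G c' (fun il : I × Fin m => K (il.1, fun j => x j il.2))
      (fun il : I × Fin m => K (il.1, fun j => y j il.2))
    rw [e1, e2]
    exact ((Orb.of_mem hη _).symm.trans h3).trans (Orb.of_mem hη _)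

/-- Canonisation of a single operation. -/
theorem canonise_one [Countable D] {G : Subgroup (Perm D)} (hR : FR G Bool) (hO : Olig G)
    (c₀ c' : Finset D) {p : ℕ} (F : (Fin p → D) → D) :
    ∃ K : (Fin p → D) → D,
      (∀ A : Finset D, ∃ β : Fin p → Perm D, (∀ j, β j ∈ st G c₀) ∧ ∃ η ∈ st G c',
        ∀ (x : Fin p → D), (∀ j, x j ∈ A) → K x = η (F (fun j => β j (x j)))) ∧
      Can G c₀ c' K := by
  obtain ⟨K, h1, h2⟩ := canonisation hR hO c₀ c' Unit p (fun _ => F)
  refine ⟨K (), ?_, ?_⟩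
  · intro A
    obtain ⟨β, hβ, η, hη, h⟩ := h1 A
    exact ⟨β, hβ, η, hη, h ()⟩
  · intro m x y hxy
    exact (h2 m x y hxy).comp (fun l => ((), l))

/-- Canonical self-maps that extend a given group element on a finite set. -/
theorem exists_emb [Countable D] {G : Subgroup (Perm D)} (hR : FR G Bool) (hO : Olig G)
    (c₀ c' : Finset D) (g : Perm D) (hg : g ∈ G) (hc : ∀ a ∈ c₀, g a ∈ c') :
    ∃ e : D → D, Emb G e ∧ CanU G c₀ c' e ∧ (∀ a ∈ c₀, e a = g a) := by
  obtain ⟨K, h1, h2⟩ := canonise_one hR hO c₀ c' (fun x : Fin 1 → D => g (x 0))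
  refine ⟨fun a => K (fun _ => a), ?_, ?_, ?_⟩
  · intro A
    obtain ⟨β, hβ, η, hη, h⟩ := h1 A
    refine ⟨η * g * β 0, ?_, fun a ha => ?_⟩
    · exact Subgroup.mul_mem _ (Subgroup.mul_mem _ (st_le hη) hg) (st_le (hβ 0))
    · exact h (fun _ => a) (fun _ => ha)
  · intro m x y hxy
    exact h2 m (fun _ => x) (fun _ => y) (fun _ => hxy)
  · intro a ha
    obtain ⟨β, hβ, η, hη, h⟩ := h1 c₀
    refine (h (fun _ => a) (fun _ => ha)).trans ?_
    show η (g (β 0 a)) = g a
    rw [(mem_st.1 (hβ 0)).2 a ha, (mem_st.1 hη).2 _ (hc a ha)]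

end Pool.Agent.MP_f99268_lc
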