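import Pool.Agent.Lib.MP_f99268_lc.Free

/-!
# The glueing chain for structures with free amalgamation
-/

namespace Pool.Agent.MP_f99268_lc

open Equiv Classical

variable {ι : Type} {ar : ι → ℕ} {D : Type}

/-- A self-embedding whose finite parts are all in a given position with respect to `B`. -/
theorem exists_pos [Countable D] {G : Subgroup (Perm D)} (hO : Olig G) (B : Finset D)
    (R : Set D → Prop) (hR : ∀ Y Y', Y' ⊆ Y → R Y → R Y')
    (hinv : ∀ g ∈ st G B, ∀ Y, R Y → R (g '' Y))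
    (hsat : ∀ A : Finset D, ∃ g ∈ G, R (g '' (A : Set D))) :
    ∃ e : D → D, Emb G e ∧ ∀ A : Finset D, R (e '' (A : Set D)) := by
  obtain ⟨A, hA1, hA2⟩ := exists_exhaustion D
  obtain ⟨e, he⟩ := compactness A hA1
    (fun x => by
      obtain ⟨n, hn⟩ := hA2 {x}
      exact ⟨n, hn (Finset.mem_singleton_self x)⟩)
    (st G B) (hO.st B)
    (fun n f => (∃ g ∈ G, ∀ a ∈ A n, f a = g a) ∧ R (f '' (A n : Set D)))
    (by
      rintro n f f' hff' ⟨⟨g, hg, h1⟩, h2⟩
      refine ⟨⟨g, hg, fun a ha => by rw [← hff' a ha, h1 a ha]⟩, ?_⟩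
      rwa [← Set.image_congr (fun a ha => hff' a (Finset.mem_coe.1 ha))])
    (by
      rintro n f ⟨⟨g, hg, h1⟩, h2⟩
      exact ⟨⟨g, hg, fun a ha => h1 a (hA1 n ha)⟩,
        hR _ _ (Set.image_mono (Finset.coe_subset.2 (hA1 n))) h2⟩)
    (by
      rintro n f h hh ⟨⟨g, hg, h1⟩, h2⟩
      refine ⟨⟨h * g, G.mul_mem (st_le hh) hg, fun a ha => ?_⟩, ?_⟩
      · show h (f a) = h (g a)
        rw [h1 a ha]
      · have := hinv h hh _ h2
        rwa [Set.image_image] at this)
    (by
      intro n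
      obtain ⟨g, hg, h⟩ := hsat (A n)
      exact ⟨g, ⟨g, hg, fun _ _ => rfl⟩, h⟩)
  refine ⟨e, fun S => ?_, fun S => ?_⟩
  · obtain ⟨n, hn⟩ := hA2 S
    obtain ⟨g, hg, h⟩ := (he n).1
    exact ⟨g, hg, fun a ha => h a (hn ha)⟩
  · obtain ⟨n, hn⟩ := hA2 S
    exact hR _ _ (Set.image_mono (Finset.coe_subset.2 hn)) (he n).2

/-- `Y` is on the side `r` of `B`, and is not related to it. -/
def Pos (Δ : Str ι ar D) (r : D → D → Prop) (B Y : Set D) : Prop :=
  (∀ b ∈ B, ∀ y ∈ Y, r b y) ∧ Apart Δ B Y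

theorem Pos.disjoint {Δ : Str ι ar D} {r : D → D → Prop} (hr : ∀ a, ¬ r a a) {B Y : Set D}
    (h : Pos Δ r B Y) : Disjoint B Y :=
  Set.disjoint_left.2 fun a ha hb => hr a (h.1 a ha a hb)

theorem Pos.mono {Δ : Str ι ar D} {r : D → D → Prop} (hr : ∀ a, ¬ r a a) {B Y Y' : Set D}
    (hY : Y' ⊆ Y) (h : Pos Δ r B Y) : Pos Δ r B Y' :=
  ⟨fun b hb y hy => h.1 b hb y (hY hy), h.2.mono subset_rfl hY (h.disjoint hr)⟩

theorem Pos.image {Δ : Str ι ar D} {r : D → D → Prop}
    (hr : ∀ g ∈ autG Δ, ∀ a b, r (g a) (g b) ↔ r a b) {B : Finset D} {Y : Set D}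
    {g : Perm D} (hg : g ∈ st (autG Δ) B) (h : Pos Δ r B Y) : Pos Δ r B (g '' Y) := by
  rw [mem_st] at hg
  refine ⟨?_, ?_⟩
  · rintro b hb _ ⟨y, hy, rfl⟩
    have := (hr g hg.1 b y).2 (h.1 b hb y hy)
    rwa [hg.2 b hb] at this
  · intro i t ht hk
    have h1 : Δ.rel i (fun k => g⁻¹ (t k)) := by
      rw [← hg.1.2.2 i]
      simpa using ht
    rcases h.2 i (fun k => g⁻¹ (t k)) h1 (fun k => by
      rcases hk k with h2 | ⟨y, hy, h2⟩
      · left
        have : g⁻¹ (t k) = t k := by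
          rw [Perm.inv_eq_iff_eq]
          exact (hg.2 _ h2).symm
        rw [this]
        exact h2
      · right
        rw [← h2]
        simpa using hy) with h2 | h2
    · left
      intro k
      have h3 : t k = g⁻¹ (t k) := (g.apply_symm_apply (t k)).symm.trans (hg.2 _ (h2 k))
      rw [h3]
      exact h2 k
    · right
      intro k
      exact ⟨_, h2 k, by simp⟩

/-- The type over `B` of a tuple not related to `B` is determined by its type and the order. -/
theorem free_eq {Δ : Str ι ar D} (hΔ : Homogeneous Δ)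
    {B : Finset D} {α : Type} [Finite α] {x y : α → D} (h : Orb (autG Δ) ∅ x y)
    (hx : Apart Δ B (Set.range x)) (hy : Apart Δ B (Set.range y))
    (hdx : ∀ i, x i ∉ B) (hdy : ∀ i, y i ∉ B)
    (h1 : ∀ b ∈ B, ∀ i, Δ.lt b (x i) ↔ Δ.lt b (y i))
    (h2 : ∀ b ∈ B, ∀ i, Δ.lt (x i) b ↔ Δ.lt (y i) b) : Orb (autG Δ) B x y := by
  obtain ⟨g₀, hg₀, h0⟩ := h
  have hg₀' : g₀ ∈ autG Δ := st_le hg₀
  let f : D → D := fun a => if a ∈ B then a else g₀ a
  have hfB : ∀ b ∈ B, f b = b := fun b hb => if_pos hb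
  have hfx : ∀ i, f (x i) = y i := fun i => by
    simp only [f, if_neg (hdx i), h0]
  obtain ⟨g, hg, hgf⟩ := hΔ.ext (S := (B : Set D) ∪ Set.range x)
    ((Finset.finite_toSet B).union (Set.finite_range x)) (f := f) (by
    refine ⟨?_, ?_, ?_⟩
    · rintro a (ha | ⟨i, rfl⟩) b (hb | ⟨j, rfl⟩) hab
      · rwa [hfB a ha, hfB b hb] at hab
      · rw [hfB a ha, hfx] at hab
        rw [hab] at ha
        exact absurd ha (hdy j)
      · rw [hfB b hb, hfx] at hab
        rw [← hab] at hb
        exact absurd hb (hdy i)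
      · rw [hfx, hfx, ← h0, ← h0] at hab
        exact g₀.injective hab
    · rintro a (ha | ⟨i, rfl⟩) b (hb | ⟨j, rfl⟩)
      · rw [hfB a ha, hfB b hb]
      · rw [hfB a ha, hfx]
        exact (h1 a ha j).symm
      · rw [hfB b hb, hfx]
        exact (h2 b hb i).symm
      · rw [hfx, hfx, ← h0, ← h0]
        exact hg₀'.2.1 _ _
    · intro i t ht
      have hall1 : (∀ k, t k ∈ (B : Set D)) → (fun k => f (t k)) = t := fun h => by
        funext k
        exact hfB _ (h k)
      have hall2 : (∀ k, t k ∈ Set.range x) → (fun k => f (t k)) = fun k => g₀ (t k) := fun h => by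
        funext k
        obtain ⟨j, hj⟩ := h k
        rw [← hj, hfx, h0]
      constructor
      · intro hrel
        rcases hy i _ hrel (fun k => by
          rcases ht k with h | ⟨j, h⟩
          · left
            rw [hfB _ h]
            exact h
          · right
            rw [← h, hfx]
            exact ⟨j, rfl⟩) with h3 | h3
        · rw [hall1] at hrel
          · exact hrel
          · intro k
            rcases ht k with h | ⟨j, h⟩
            · exact h
            · have := h3 k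
              rw [← h, hfx] at this
              exact absurd this (hdy j)
        · rw [hall2] at hrel
          · exact (hg₀'.2.2 i t).1 hrel
          · intro k
            rcases ht k with h | h
            · obtain ⟨j, hj⟩ := h3 k
              rw [hfB _ h] at hj
              rw [← hj] at h
              exact absurd h (hdy j)
            · exact h
      · intro hrel
        rcases hx i _ hrel ht with h3 | h3
        · rw [hall1 h3]
          exact hrel
        · rw [hall2 h3]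
          exact (hg₀'.2.2 i t).2 hrel)
  refine ⟨g, mem_st.2 ⟨hg, fun a ha => ?_⟩, fun i => ?_⟩
  · rw [hgf a (Or.inl ha), hfB a ha]
  · rw [hgf _ (Or.inr ⟨i, rfl⟩), hfx]

/-- Tuples of the same type which are both on the side `r` of `B`. -/
theorem Pos.orb {Δ : Str ι ar D} (hlin : IsStrictTotalOrder D Δ.lt) (hΔ : Homogeneous Δ)
    {r : D → D → Prop} (hr : r = Δ.lt ∨ r = fun a b => Δ.lt b a)
    {B : Finset D} {α : Type} [Finite α] {x y : α → D} (h : Orb (autG Δ) ∅ x y)
    (hx : Pos Δ r B (Set.range x)) (hy : Pos Δ r B (Set.range y)) : Orb (autG Δ) B x y := by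
  have hirr : ∀ a, ¬ Δ.lt a a := fun a => hlin.irrefl a
  have htr : ∀ a b c, Δ.lt a b → Δ.lt b c → Δ.lt a c := fun a b c => hlin.trans a b c
  have hasym : ∀ a b, Δ.lt a b → ¬ Δ.lt b a := fun a b h h' => hirr _ (htr _ _ _ h h')
  rcases hr with rfl | rfl
  · apply free_eq hΔ h hx.2 hy.2
    · exact fun i hi => hirr _ (hx.1 _ hi _ ⟨i, rfl⟩)
    · exact fun i hi => hirr _ (hy.1 _ hi _ ⟨i, rfl⟩)
    · exact fun b hb i => iff_of_true (hx.1 b hb _ ⟨i, rfl⟩) (hy.1 b hb _ ⟨i, rfl⟩)
    · exact fun b hb i => iff_of_false (hasym _ _ (hx.1 b hb _ ⟨i, rfl⟩))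
        (hasym _ _ (hy.1 b hb _ ⟨i, rfl⟩))
  · apply free_eq hΔ h hx.2 hy.2
    · exact fun i hi => hirr _ (hx.1 _ hi _ ⟨i, rfl⟩)
    · exact fun i hi => hirr _ (hy.1 _ hi _ ⟨i, rfl⟩)
    · exact fun b hb i => iff_of_false (hasym _ _ (hx.1 b hb _ ⟨i, rfl⟩))
        (hasym _ _ (hy.1 b hb _ ⟨i, rfl⟩))
    · exact fun b hb i => iff_of_true (hx.1 b hb _ ⟨i, rfl⟩) (hy.1 b hb _ ⟨i, rfl⟩)

/-- Embeddings onto a side of `B`. -/
theorem exists_side [Countable D] [Finite ι] {Δ : Str ι ar D}
    (hlin : IsStrictTotalOrder D Δ.lt) (hΔ : Homogeneous Δ)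
    {r : D → D → Prop} (hr : r = Δ.lt ∨ r = fun a b => Δ.lt b a) (B : Finset D)
    (hsat : ∀ A : Finset D, ∃ g ∈ autG Δ, Pos Δ r B (g '' (A : Set D))) :
    ∃ e : D → D, Emb (autG Δ) e ∧ (∀ A : Finset D, Pos Δ r B (e '' (A : Set D))) ∧
      CanU (autG Δ) ∅ B e := by
  have hirr : ∀ a, ¬ r a a := by
    rcases hr with rfl | rfl
    · exact fun a => hlin.irrefl a
    · exact fun a => hlin.irrefl a
  have hinv : ∀ g ∈ autG Δ, ∀ a b, r (g a) (g b) ↔ r a b := by
    rcases hr with rfl | rfl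
    · exact fun g hg a b => hg.2.1 a b
    · exact fun g hg a b => hg.2.1 b a
  obtain ⟨e, he1, he2⟩ := exists_pos (olig_autG hlin hΔ) B (Pos Δ r B)
    (fun Y Y' hY h => h.mono hirr hY) (fun g hg Y h => h.image hinv hg) hsat
  refine ⟨e, he1, he2, fun m x y hxy => ?_⟩
  have hrange : ∀ x : Fin m → D, Pos Δ r B (Set.range fun l => e (x l)) := fun x => by
    refine Pos.mono hirr ?_ (he2 (Finset.univ.image x))
    rintro _ ⟨l, rfl⟩
    exact ⟨x l, by simp, rfl⟩
  exact Pos.orb hlin hΔ hr (((he1.orb x).symm.trans hxy).trans (he1.orb y)) (hrange x) (hrange y)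

theorem exists_above [Countable D] [Finite ι] {Δ : Str ι ar D}
    (hlin : IsStrictTotalOrder D Δ.lt) (hΔ : Homogeneous Δ) (hF : FreeAmalgamation Δ)
    (B : Finset D) :
    ∃ e : D → D, Emb (autG Δ) e ∧ (∀ A : Finset D, Pos Δ Δ.lt B (e '' (A : Set D))) ∧
      CanU (autG Δ) ∅ B e := by
  apply exists_side hlin hΔ (Or.inl rfl) B
  intro A
  obtain ⟨g, hg, -, h1, h2⟩ := extension hlin hΔ hF ∅ B A (Finset.empty_subset _)
    (Finset.empty_subset _) (fun a ha => absurd ha (Finset.notMem_empty a))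
  refine ⟨g, hg, ?_, ?_⟩
  · rintro b hb _ ⟨a, ha, rfl⟩
    exact h1 b hb a ha (Finset.notMem_empty _)
  · intro i t ht hk
    rcases h2 i t ht (fun k => by
      rcases hk k with h | ⟨a, ha, e⟩
      · exact Or.inl h
      · exact Or.inr ⟨a, ha, e.symm⟩) with h | h
    · exact Or.inl h
    · right
      intro k
      obtain ⟨a, ha, e⟩ := h k
      exact ⟨a, ha, e.symm⟩

theorem exists_below [Countable D] [Finite ι] {Δ : Str ι ar D}
    (hlin : IsStrictTotalOrder D Δ.lt) (hΔ : Homogeneous Δ) (hF : FreeAmalgamation Δ)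
    (o : D) :
    ∃ e : D → D, Emb (autG Δ) e ∧
      (∀ A : Finset D, Pos Δ (fun a b => Δ.lt b a) ({o} : Finset D) (e '' (A : Set D))) ∧
      CanU (autG Δ) ∅ {o} e := by
  apply exists_side hlin hΔ (Or.inr rfl) {o}
  intro A
  obtain ⟨g, hg, -, h1, h2⟩ := extension hlin hΔ hF ∅ A {o} (Finset.empty_subset _)
    (Finset.empty_subset _) (fun a ha => absurd ha (Finset.notMem_empty a))
  have hgi : ∀ x, g (g⁻¹ x) = x := fun x => g.apply_symm_apply x
  refine ⟨g⁻¹, (autG Δ).inv_mem hg, ?_, ?_⟩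
  · rintro b hb _ ⟨a, ha, rfl⟩
    have hb' : b = o := by simpa using hb
    subst hb'
    show Δ.lt (g⁻¹ a) b
    rw [← hg.2.1 _ _, hgi]
    exact h1 a ha b (Finset.mem_singleton_self b) (Finset.notMem_empty _)
  · intro i t ht hk
    have ht' : Δ.rel i (fun k => g (t k)) := (hg.2.2 i t).2 ht
    rcases h2 i _ ht' (fun k => by
      rcases hk k with h | ⟨a, ha, e⟩
      · right
        exact ⟨t k, by simpa using h, rfl⟩
      · left
        rw [← e, hgi]
        exact ha) with h | h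
    · right
      intro k
      exact ⟨g (t k), h k, by simp⟩
    · left
      intro k
      obtain ⟨a, ha, e⟩ := h k
      rw [g.injective e]
      exact ha

/-- The zones. -/
def Zone (Δ : Str ι ar D) (j : ℕ) (B Y : Finset D) : Prop :=
  if j = 0 then Y ⊆ B else if j = 1 then Disjoint Y B else Pos Δ Δ.lt B Y

theorem zone_step {Δ : Str ι ar D}
    (hlin : IsStrictTotalOrder D Δ.lt) (hΔ : Homogeneous Δ) (hF : FreeAmalgamation Δ) (o : D)
    (j : ℕ) (hj : j < 2) (A B : Finset D) (τ : Perm D) (hτ : τ ∈ autG Δ)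
    (hZ : Zone Δ j B ((A.filter (fun x => Δ.lt x o)).image τ)) :
    ∃ σ ∈ autG Δ, (∀ a ∈ A, Δ.lt a o → σ a = τ a) ∧
      Zone Δ (j + 1) B ((A.filter (fun x => Δ.lt o x)).image σ) := by
  have hirr : ∀ a, ¬ Δ.lt a a := fun a => hlin.irrefl a
  have htr : ∀ a b c, Δ.lt a b → Δ.lt b c → Δ.lt a c := fun a b c => hlin.trans a b c
  have htri : ∀ a b, ¬ Δ.lt a b → ¬ Δ.lt b a → a = b := fun a b => hlin.trichotomous a b
  set A₀ : Finset D := (A.filter (fun x => Δ.lt x o)).image τ with hA₀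
  have hmem : ∀ q, τ q ∈ A₀ ↔ q ∈ A ∧ Δ.lt q o := by
    intro q
    rw [hA₀, Finset.mem_image]
    constructor
    · rintro ⟨p, hp, e⟩
      rw [← τ.injective e]
      exact Finset.mem_filter.1 hp
    · exact fun h => ⟨q, Finset.mem_filter.2 h, rfl⟩
  have h0A : A₀ ⊆ A.image τ := Finset.image_subset_image (Finset.filter_subset _ _)
  have hlt : ∀ a ∈ A₀, ∀ b ∈ A.image τ, b ∉ A₀ → Δ.lt a b := by
    intro a ha b hb hb0
    obtain ⟨p, hp, rfl⟩ := Finset.mem_image.1 ha
    obtain ⟨q, hq, rfl⟩ := Finset.mem_image.1 hb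
    rw [hmem] at hb0
    rw [Finset.mem_filter] at hp
    rw [hτ.2.1]
    by_cases h : Δ.lt o q
    · exact htr _ _ _ hp.2 h
    · rw [htri q o (fun h' => hb0 ⟨hq, h'⟩) h]
      exact hp.2
  have hQ : ∀ q ∈ A.filter (fun x => Δ.lt o x), τ q ∈ A.image τ ∧ τ q ∉ A₀ := by
    intro q hq
    rw [Finset.mem_filter] at hq
    refine ⟨Finset.mem_image_of_mem _ hq.1, fun h => ?_⟩
    exact hirr _ (htr _ _ _ ((hmem q).1 h).2 hq.2)
  rcases (by omega : j = 0 ∨ j = 1) with rfl | rfl
  · -- from the inside of `B` to the outside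
    have hZ' : A₀ ⊆ B := by simpa [Zone] using hZ
    obtain ⟨g, hg, h1, h2, -⟩ := extension hlin hΔ hF A₀ B (A.image τ) hZ' h0A hlt
    refine ⟨g * τ, (autG Δ).mul_mem hg hτ, fun a ha hao => ?_, ?_⟩
    · exact h1 _ ((hmem a).2 ⟨ha, hao⟩)
    · have : Disjoint ((A.filter (fun x => Δ.lt o x)).image (g * τ)) B := by
        rw [Finset.disjoint_left]
        intro y hy hyB
        obtain ⟨q, hq, rfl⟩ := Finset.mem_image.1 hy
        exact hirr _ (h2 _ hyB (τ q) (hQ q hq).1 (hQ q hq).2)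
      simpa [Zone] using this
  · -- from the outside of `B` to the top
    have hZ' : Disjoint A₀ B := by simpa [Zone] using hZ
    obtain ⟨g, hg, h1, h2, h3⟩ := extension hlin hΔ hF A₀ (B ∪ A₀) (A.image τ)
      Finset.subset_union_right h0A hlt
    refine ⟨g * τ, (autG Δ).mul_mem hg hτ, fun a ha hao => ?_, ?_⟩
    · exact h1 _ ((hmem a).2 ⟨ha, hao⟩)
    · have : Pos Δ Δ.lt B ((A.filter (fun x => Δ.lt o x)).image (g * τ) : Finset D) := by
        refine ⟨?_, ?_⟩
        · intro b hb y hy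
          obtain ⟨q, hq, rfl⟩ := Finset.mem_image.1 (Finset.mem_coe.1 hy)
          exact h2 b (Finset.mem_union_left _ hb) (τ q) (hQ q hq).1 (hQ q hq).2
        · intro i t ht hk
          rcases h3 i t ht (fun k => by
            rcases hk k with h | h
            · exact Or.inl (Finset.mem_union_left _ h)
            · obtain ⟨q, hq, e⟩ := Finset.mem_image.1 (Finset.mem_coe.1 h)
              exact Or.inr ⟨τ q, (hQ q hq).1, e.symm⟩) with h4 | h4
          · left
            intro k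
            rcases hk k with h | h
            · exact h
            · obtain ⟨q, hq, e⟩ := Finset.mem_image.1 (Finset.mem_coe.1 h)
              have h5 := h2 _ (h4 k) (τ q) (hQ q hq).1 (hQ q hq).2
              rw [← e] at h5
              exact absurd h5 (hirr _)
          · right
            intro k
            rcases hk k with h | h
            · obtain ⟨a, ha, e⟩ := h4 k
              by_cases ha0 : a ∈ A₀
              · rw [h1 a ha0] at e
                rw [← e] at ha0
                exact absurd h (Finset.disjoint_left.1 hZ' ha0)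
              · have h5 := h2 _ (Finset.mem_union_left _ h) a ha ha0
                rw [← e] at h5
                exact absurd h5 (hirr _)
            · exact h
      simpa [Zone] using this

/-- The glueing chain. -/
theorem exists_glue [Countable D] [Finite ι] {Δ : Str ι ar D} (o : D)
    (hlin : IsStrictTotalOrder D Δ.lt) (hΔ : Homogeneous Δ) (hF : FreeAmalgamation Δ) :
    Nonempty (Glue (autG Δ)) := by
  have hirr : ∀ a, ¬ Δ.lt a a := fun a => hlin.irrefl a
  choose e he1 he2 he3 using exists_above hlin hΔ hF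
  obtain ⟨u, hu1, hu2, hu3⟩ := exists_below hlin hΔ hF o
  refine ⟨{
    N := 2
    c := fun _ => {o}
    P := fun _ => {x | Δ.lt x o}
    Q := fun _ => {x | Δ.lt o x}
    hP := ?_
    hQ := ?_
    uP := fun _ => u
    uP_emb := fun _ => hu1
    uP_can := fun _ => hu3
    uP_mem := ?_
    uQ := fun _ => e {o}
    uQ_emb := fun _ => he1 _
    uQ_can := fun _ => he3 _
    uQ_mem := ?_
    Z := Zone Δ
    Z_anti := ?_
    Z_zero := ?_
    step := ?_
    t := e
    t_emb := he1
    t_can := he3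
    final := ?_ }⟩
  · rintro - g hg x hx
    rw [mem_st] at hg
    have := (hg.1.2.1 x o).2 hx
    rwa [hg.2 o (Finset.mem_singleton_self o)] at this
  · rintro - g hg x hx
    rw [mem_st] at hg
    have := (hg.1.2.1 o x).2 hx
    rwa [hg.2 o (Finset.mem_singleton_self o)] at this
  · rintro - x
    exact (hu2 {x}).1 o (by simp) (u x) (by simp)
  · rintro - x
    exact (he2 {o} {x}).1 o (by simp) (e {o} x) (by simp)
  · intro j B Y Y' hY h
    unfold Zone at h ⊢
    split_ifs at h ⊢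
    · exact hY.trans h
    · exact Finset.disjoint_of_subset_left hY h
    · exact h.mono hirr (Finset.coe_subset.2 hY)
  · intro B Y h
    simpa [Zone] using h
  · intro j hj A B τ hτ hZ
    exact zone_step hlin hΔ hF o j hj A B τ hτ hZ
  · intro B m x σ hσ hZ
    have hZ' : Pos Δ Δ.lt B ((Finset.univ.image fun i => σ (x i) : Finset D) : Set D) := by
      simpa [Zone] using hZ
    apply Pos.orb hlin hΔ (Or.inl rfl)
    · exact ((he1 B).orb x).symm.trans (Orb.of_mem (by rwa [st_empty]) x)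
    · refine Pos.mono hirr ?_ (he2 B (Finset.univ.image x))
      rintro _ ⟨l, rfl⟩
      exact ⟨x l, by simp, rfl⟩
    · refine Pos.mono hirr ?_ hZ'
      rintro _ ⟨l, rfl⟩
      simp

end Pool.Agent.MP_f99268_lc
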