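import Pool.Agent.Lib.MP_f99268_lc.Value

/-!
# Continuity of the value, from a chain of glueing steps
-/

namespace Pool.Agent.MP_f99268_lc

open Equiv Classical Filter

variable {D : Type}

/-- A finite chain of glueing steps leading from the inside of a finite set `B` to a position that
is canonical over `B`. -/
structure Glue (G : Subgroup (Perm D)) where
  N : ℕ
  c : ℕ → Finset D
  P : ℕ → Set D
  Q : ℕ → Set D
  hP : ∀ j, ∀ g ∈ st G (c j), ∀ x ∈ P j, g x ∈ P j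
  hQ : ∀ j, ∀ g ∈ st G (c j), ∀ x ∈ Q j, g x ∈ Q j
  uP : ℕ → D → D
  uP_emb : ∀ j, Emb G (uP j)
  uP_can : ∀ j, CanU G ∅ (c j) (uP j)
  uP_mem : ∀ j x, uP j x ∈ P j
  uQ : ℕ → D → D
  uQ_emb : ∀ j, Emb G (uQ j)
  uQ_can : ∀ j, CanU G ∅ (c j) (uQ j)
  uQ_mem : ∀ j x, uQ j x ∈ Q j
  Z : ℕ → Finset D → Finset D → Prop
  Z_anti : ∀ j B Y Y', Y' ⊆ Y → Z j B Y → Z j B Y'
  Z_zero : ∀ B Y, Y ⊆ B → Z 0 B Y
  step : ∀ j < N, ∀ A B : Finset D, ∀ τ ∈ G, Z j B ((A.filter (· ∈ P j)).image τ) →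
    ∃ σ ∈ G, (∀ a ∈ A, a ∈ P j → σ a = τ a) ∧ Z (j + 1) B ((A.filter (· ∈ Q j)).image σ)
  t : Finset D → D → D
  t_emb : ∀ B, Emb G (t B)
  t_can : ∀ B, CanU G ∅ B (t B)
  final : ∀ (B : Finset D) (m : ℕ) (x : Fin m → D), ∀ σ ∈ G,
    Z N B (Finset.univ.image fun i => σ (x i)) →
    Orb G B (fun i => t B (x i)) (fun i => σ (x i))

/-- The action on types of a canonical function is determined by a finite part of it. -/
def FD (G : Subgroup (Perm D)) : Prop :=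
  ∀ k : ℕ, ∃ A : Finset D, ∀ h h' : (Fin k → D) → D, Can G ∅ ∅ h → Can G ∅ ∅ h' →
    (∀ (m : ℕ) (x : Fin k → Fin m → D), (∀ j l, x j l ∈ A) →
      Orb G ∅ (fun l => h (fun j => x j l)) (fun l => h' (fun j => x j l))) →
    ∀ (m : ℕ) (x : Fin k → Fin m → D),
      Orb G ∅ (fun l => h (fun j => x j l)) (fun l => h' (fun j => x j l))

namespace Ctx

variable [Countable D] (X : Ctx D)

/-- The function `b` has the value `i` and all its finite parts occur in zone `j` over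
members of `𝔅`. -/
def Real (gl : Glue X.G) {k : ℕ} (K : Finset D → (Fin (k + 1) → D) → D) (𝔅 : Set (Finset D))
    (i : Fin (k + 1)) (j : ℕ) (b : (Fin (k + 1) → D) → D) : Prop :=
  b ∈ X.C (k + 1) ∧ Can X.G ∅ ∅ b ∧ X.val k b = i ∧ ∀ A : Finset D, ∃ B ∈ 𝔅,
    ∃ τ : Fin (k + 1) → Perm D, (∀ i, τ i ∈ X.G) ∧ (∀ i, gl.Z j B (A.image (τ i))) ∧
      ∃ η ∈ X.G, ∀ x : Fin (k + 1) → D, (∀ i, x i ∈ A) → b x = η (K B (fun i => τ i (x i)))

/-- The condition on a finite part. -/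
def Part (gl : Glue X.G) {k : ℕ} (K : Finset D → (Fin (k + 1) → D) → D) (𝔅 : Set (Finset D))
    (j : ℕ) (b : (Fin (k + 1) → D) → D) (A : Finset D) (F : (Fin (k + 1) → D) → D) : Prop :=
  ∃ B ∈ 𝔅, ∃ σ : Fin (k + 1) → Perm D, (∀ i, σ i ∈ X.G) ∧
    (∀ i, gl.Z (j + 1) B ((A.filter (· ∈ gl.Q j)).image (σ i))) ∧
    (∃ η ∈ X.G, ∀ x : Fin (k + 1) → D, (∀ i, x i ∈ A) → (∀ i, x i ∈ gl.P j) →
      b x = η (K B (fun i => σ i (x i)))) ∧
    (∃ η ∈ X.G, ∀ x : Fin (k + 1) → D, (∀ i, x i ∈ A) → F x = η (K B (fun i => σ i (x i))))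

theorem Part.anti {gl : Glue X.G} {k : ℕ} {K : Finset D → (Fin (k + 1) → D) → D}
    {𝔅 : Set (Finset D)} {j : ℕ} {b : (Fin (k + 1) → D) → D} {A A' : Finset D}
    {F : (Fin (k + 1) → D) → D} (hA : A' ⊆ A) (h : X.Part gl K 𝔅 j b A F) :
    X.Part gl K 𝔅 j b A' F := by
  obtain ⟨B, hB, σ, hσ, hZ, ⟨η, hη, h1⟩, ⟨η', hη', h2⟩⟩ := h
  refine ⟨B, hB, σ, hσ, fun i => ?_, ⟨η, hη, fun x hx => h1 x (fun i => hA (hx i))⟩,
    ⟨η', hη', fun x hx => h2 x (fun i => hA (hx i))⟩⟩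
  exact gl.Z_anti _ _ _ _ (Finset.image_subset_image (Finset.filter_subset_filter _ hA)) (hZ i)

theorem real_step {gl : Glue X.G} {k : ℕ} {K : Finset D → (Fin (k + 1) → D) → D}
    {𝔅 : Set (Finset D)} (hK : ∀ B ∈ 𝔅, K B ∈ X.C (k + 1)) {i : Fin (k + 1)} {j : ℕ}
    (hj : j < gl.N) {b : (Fin (k + 1) → D) → D} (hb : X.Real gl K 𝔅 i j b) :
    ∃ b', X.Real gl K 𝔅 i (j + 1) b' := by
  obtain ⟨hbC, hbcan, hbval, hbreal⟩ := hb
  obtain ⟨A, hA1, hA2⟩ := exists_exhaustion D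
  -- a limit function
  obtain ⟨F, hF⟩ := compactness (fun n => Fintype.piFinset fun _ : Fin (k + 1) => A n)
    (fun n x hx => by
      rw [Fintype.mem_piFinset] at hx ⊢
      exact fun i => hA1 n (hx i))
    (fun x => by
      obtain ⟨n, hn⟩ := hA2 (Finset.univ.image x)
      refine ⟨n, ?_⟩
      rw [Fintype.mem_piFinset]
      exact fun i => hn (Finset.mem_image_of_mem _ (Finset.mem_univ _)))
    X.G X.hO (fun n F => X.Part gl K 𝔅 j b (A n) F)
    (by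
      rintro n f f' hff' ⟨B, hB, σ, hσ, hZ, h1, ⟨η', hη', h2⟩⟩
      refine ⟨B, hB, σ, hσ, hZ, h1, ⟨η', hη', fun x hx => ?_⟩⟩
      rw [← hff' x (by rw [Fintype.mem_piFinset]; exact hx)]
      exact h2 x hx)
    (fun n F h => Part.anti X (hA1 n) h)
    (by
      rintro n f h hh ⟨B, hB, σ, hσ, hZ, h1, ⟨η', hη', h2⟩⟩
      refine ⟨B, hB, σ, hσ, hZ, h1, ⟨h * η', X.G.mul_mem hh hη', fun x hx => ?_⟩⟩
      exact congrArg h (h2 x hx))
    (by
      intro n
      obtain ⟨B, hB, τ, hτ, hZ, η, hη, h⟩ := hbreal ((A n).filter (· ∈ gl.P j))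
      choose σ hσ hσP hσZ using fun i => gl.step j hj (A n) B (τ i) (hτ i) (hZ i)
      refine ⟨fun x => K B (fun i => σ i (x i)), B, hB, σ, hσ, hσZ, ⟨η, hη, fun x hx hxP => ?_⟩,
        ⟨1, X.G.one_mem, fun x _ => rfl⟩⟩
      rw [h x (fun i => Finset.mem_filter.2 ⟨hx i, hxP i⟩)]
      congr 2
      funext i
      exact (hσP i _ (hx i) (hxP i)).symm)
  have hF' : ∀ A', X.Part gl K 𝔅 j b A' F := fun A' => by
    obtain ⟨n, hn⟩ := hA2 A'
    exact Part.anti X hn (hF n)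
  have hFC : F ∈ X.C (k + 1) := by
    apply X.hC.closed
    intro A'
    obtain ⟨B, hB, σ, hσ, -, -, ⟨η', hη', h2⟩⟩ := hF' A'
    exact ⟨_, X.hC.aut_comp (X.hC.comp_aut (hK B hB) hσ) hη', h2⟩
  -- canonise it
  obtain ⟨L, hL1, hL2⟩ := canonise_one X.hR X.hO (gl.c j) ∅ F
  have hLC : L ∈ X.C (k + 1) := by
    apply X.hC.local hFC
    intro A'
    obtain ⟨β, hβ, η, hη, h⟩ := hL1 A'
    exact ⟨β, fun i => st_le (hβ i), η, st_le hη, h⟩
  have hL : ∀ A', X.Part gl K 𝔅 j b A' L := by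
    intro A'
    obtain ⟨β, hβ, η₁, hη₁, h₁⟩ := hL1 A'
    set A'' : Finset D := Finset.univ.biUnion fun i => A'.image (β i) with hA''
    have hβA : ∀ i, ∀ a ∈ A', β i a ∈ A'' := fun i a ha => by
      rw [hA'', Finset.mem_biUnion]
      exact ⟨i, Finset.mem_univ _, Finset.mem_image_of_mem _ ha⟩
    obtain ⟨B, hB, σ, hσ, hZ, ⟨η, hη, h1⟩, ⟨η', hη', h2⟩⟩ := hF' A''
    refine ⟨B, hB, fun i => σ i * β i, fun i => X.G.mul_mem (hσ i) (st_le (hβ i)), ?_, ?_, ?_⟩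
    · intro i
      refine gl.Z_anti _ _ _ _ ?_ (hZ i)
      intro y hy
      obtain ⟨a, ha, rfl⟩ := Finset.mem_image.1 hy
      rw [Finset.mem_filter] at ha
      refine Finset.mem_image.2 ⟨β i a, ?_, rfl⟩
      rw [Finset.mem_filter]
      exact ⟨hβA i a ha.1, gl.hQ j _ (hβ i) _ ha.2⟩
    · -- b composed with β
      obtain ⟨g, hg, hgb⟩ := hbcan.fin (α := Fin (k + 1) → {a // a ∈ A'})
        (fun i s => (s i : D)) (fun i s => β i (s i))
        (fun i => ⟨β i, by rw [st_empty]; exact st_le (hβ i), fun _ => rfl⟩)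
      refine ⟨g⁻¹ * η, X.G.mul_mem (X.G.inv_mem (st_le hg)) hη, fun x hx hxP => ?_⟩
      have e1 := h1 (fun i => β i (x i)) (fun i => hβA i _ (hx i))
        (fun i => gl.hP j _ (hβ i) _ (hxP i))
      have e2 := hgb (fun i => ⟨x i, hx i⟩)
      show b x = g⁻¹ (η (K B fun i => σ i (β i (x i))))
      rw [Perm.eq_inv_iff_eq]
      exact e2.trans e1
    · refine ⟨η₁ * η', X.G.mul_mem (st_le hη₁) hη', fun x hx => ?_⟩
      rw [h₁ x hx, h2 (fun i => β i (x i)) (fun i => hβA i _ (hx i))]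
      rfl
  have hLval : X.val k L = i := by
    have e1 : X.val k (fun x => L (fun j' => gl.uP j (x j'))) = X.val k L :=
      X.val_box hLC hL2 (fun _ => gl.uP_emb j) (fun _ => gl.uP_can j)
    have e2 : X.val k (fun x => L (fun j' => gl.uP j (x j'))) = X.val k b := by
      apply X.val_congr (c := ∅) (c' := ∅)
      · exact X.hC.comp_emb hLC (fun _ => gl.uP_emb j)
      · exact hbC
      · exact hL2.comp_canU (fun _ => gl.uP_can j)
      · exact hbcan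
      · intro m x
        obtain ⟨B, hB, σ, hσ, hZ, ⟨η, hη, h1⟩, ⟨η', hη', h2⟩⟩ :=
          hL (Finset.univ.image (fun il : Fin (k + 1) × Fin m => gl.uP j (x il.1 il.2)))
        have hmem : ∀ i l, gl.uP j (x i l) ∈
            (Finset.univ.image (fun il : Fin (k + 1) × Fin m => gl.uP j (x il.1 il.2))) :=
          fun i l => Finset.mem_image.2 ⟨(i, l), Finset.mem_univ _, rfl⟩
        have o1 : Orb X.G ∅ (fun l => L (fun j' => gl.uP j (x j' l)))
            (fun l => b (fun j' => gl.uP j (x j' l))) := by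
          refine ⟨η * η'⁻¹, ?_, fun l => ?_⟩
          · rw [st_empty]
            exact X.G.mul_mem hη (X.G.inv_mem hη')
          · have k1 := h1 (fun j' => gl.uP j (x j' l)) (fun i => hmem i l) (fun i => gl.uP_mem j _)
            have k2 := h2 (fun j' => gl.uP j (x j' l)) (fun i => hmem i l)
            show (η * η'⁻¹) (L fun j' => gl.uP j (x j' l)) = b fun j' => gl.uP j (x j' l)
            rw [k1, k2]
            simp
        refine o1.trans (Orb.symm ?_)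
        exact hbcan m x (fun j' l => gl.uP j (x j' l)) (fun j' => (gl.uP_emb j).orb _)
    rw [← e1, e2, hbval]
  refine ⟨fun x => L (fun j' => gl.uQ j (x j')), ?_, ?_, ?_, ?_⟩
  · exact X.hC.comp_emb hLC (fun _ => gl.uQ_emb j)
  · exact hL2.comp_canU (fun _ => gl.uQ_can j)
  · rw [X.val_box hLC hL2 (fun _ => gl.uQ_emb j) (fun _ => gl.uQ_can j), hLval]
  · intro A'
    obtain ⟨B, hB, σ, hσ, hZ, -, ⟨η', hη', h2⟩⟩ := hL (A'.image (gl.uQ j))
    obtain ⟨g, hg, hgA⟩ := gl.uQ_emb j A'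
    refine ⟨B, hB, fun i => σ i * g, fun i => X.G.mul_mem (hσ i) hg, fun i => ?_, η', hη',
      fun x hx => ?_⟩
    · refine gl.Z_anti _ _ _ _ ?_ (hZ i)
      intro y hy
      obtain ⟨a, ha, rfl⟩ := Finset.mem_image.1 hy
      refine Finset.mem_image.2 ⟨gl.uQ j a, ?_, ?_⟩
      · rw [Finset.mem_filter]
        exact ⟨Finset.mem_image_of_mem _ ha, gl.uQ_mem j a⟩
      · rw [hgA a ha]
        rfl
    · refine (h2 (fun j' => gl.uQ j (x j')) (fun i => Finset.mem_image_of_mem _ (hx i))).trans ?_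
      congr 2
      funext i
      rw [hgA _ (hx i)]
      rfl

/-- Continuity of the value. -/
theorem cont (gl : Glue X.G) (fd : FD X.G) {k : ℕ} {H : (Fin (k + 1) → D) → D}
    (hH : H ∈ X.C (k + 1)) (hHcan : Can X.G ∅ ∅ H) {K : Finset D → (Fin (k + 1) → D) → D}
    (hK : ∀ B, K B ∈ X.C (k + 1)) (hKcan : ∀ B, Can X.G B ∅ (K B))
    (hKH : ∀ B, ∃ η ∈ X.G, ∀ x : Fin (k + 1) → D, (∀ j, x j ∈ B) → H x = η (K B x)) :
    ∀ᶠ B in (uf D : Filter (Finset D)), X.val k (K B) = X.val k H := by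
  obtain ⟨v, hv⟩ := uf_exists_val (fun B => X.val k (K B))
  suffices h : v = X.val k H by rwa [← h]
  by_contra hne
  let 𝔅 : Set (Finset D) := {B | X.val k (K B) = v}
  have hcof : ∀ A : Finset D, ∃ B ∈ 𝔅, A ⊆ B := by
    intro A
    obtain ⟨B, h1, h2⟩ := (hv.and (uf_superset A)).exists
    exact ⟨B, h1, h2⟩
  have h0 : X.Real gl K 𝔅 (X.val k H) 0 H := by
    refine ⟨hH, hHcan, rfl, fun A => ?_⟩
    obtain ⟨B, hB, hAB⟩ := hcof A
    obtain ⟨η, hη, h⟩ := hKH B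
    refine ⟨B, hB, fun _ => 1, fun _ => X.G.one_mem, fun i => gl.Z_zero _ _ ?_, η, hη,
      fun x hx => h x (fun j => hAB (hx j))⟩
    simpa using hAB
  have h1 : ∀ j ≤ gl.N, ∃ b, X.Real gl K 𝔅 (X.val k H) j b := by
    intro j
    induction j with
    | zero => exact fun _ => ⟨H, h0⟩
    | succ j ih =>
      intro hj
      obtain ⟨b, hb⟩ := ih (by omega)
      exact X.real_step (fun B _ => hK B) (by omega) hb
  obtain ⟨b, hbC, hbcan, hbval, hb⟩ := h1 gl.N le_rfl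
  obtain ⟨A₀, hA₀⟩ := fd (k + 1)
  obtain ⟨B, hB, τ, hτ, hZ, η, hη, h2⟩ := hb A₀
  have h3 : X.val k (fun x => K B (fun j => gl.t B (x j))) = v := by
    rw [X.val_box (hK B) (hKcan B) (fun _ => gl.t_emb B) (fun _ => gl.t_can B)]
    exact hB
  apply hne
  rw [← h3, ← hbval]
  symm
  apply X.val_congr (c := ∅) (c' := ∅) hbC (X.hC.comp_emb (hK B) (fun _ => gl.t_emb B)) hbcan
    ((hKcan B).comp_canU (fun _ => gl.t_can B))
  apply hA₀ _ _ hbcan ((hKcan B).comp_canU (fun _ => gl.t_can B))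
  intro m x hx
  have e1 : (fun l => b fun j => x j l) = fun l => η (K B (fun j => τ j (x j l))) := by
    funext l
    exact h2 _ (fun j => hx j l)
  rw [e1]
  have o1 : Orb X.G ∅ (fun l => η (K B (fun j => τ j (x j l))))
      (fun l => K B (fun j => τ j (x j l))) :=
    (Orb.of_mem (by rw [st_empty]; exact hη) _).symm
  refine o1.trans ?_
  refine hKcan B m (fun j l => τ j (x j l)) (fun j l => gl.t B (x j l)) (fun j => ?_)
  refine (gl.final B m (x j) (τ j) (hτ j) (gl.Z_anti _ _ _ _ ?_ (hZ j))).symm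
  intro y hy
  obtain ⟨l, -, rfl⟩ := Finset.mem_image.1 hy
  exact Finset.mem_image_of_mem _ (hx j l)

end Ctx

end Pool.Agent.MP_f99268_lc
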