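import Mathlib

/-!
# Definitions for the statement about type clones

Structures, homogeneity, the Ramsey property, free amalgamation, reducts, polymorphism clones,
canonical operations, type clones, clone homomorphisms to the clone of projections.
-/

namespace Pool.Agent.MP_f99268_lc

variable {ι : Type} {ar : ι → ℕ} {A B D : Type}

/-- A structure with domain `D` whose signature consists of one binary relation symbol `lt` and,
for every `i : ι`, one relation symbol `rel i` of arity `ar i`. -/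
structure Str (ι : Type) (ar : ι → ℕ) (D : Type) where
  lt : D → D → Prop
  rel : (i : ι) → (Fin (ar i) → D) → Prop

/-- `f` is an embedding of the structure `M` into the structure `N`. -/
def IsEmb (M : Str ι ar A) (N : Str ι ar B) (f : A → B) : Prop :=
  Function.Injective f ∧ (∀ x y, N.lt (f x) (f y) ↔ M.lt x y) ∧
    ∀ i (t : Fin (ar i) → A), N.rel i (fun k => f (t k)) ↔ M.rel i t

/-- The substructure induced on a subset `S` of the domain. -/
def Str.on (M : Str ι ar D) (S : Set D) : Str ι ar S where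
  lt x y := M.lt x y
  rel i t := M.rel i (fun k => t k)

/-- `g` is an automorphism. -/
def IsAut (Δ : Str ι ar D) (g : Equiv.Perm D) : Prop := IsEmb Δ Δ g

/-- Homogeneity: every isomorphism between finite substructures (that is, every embedding of a
finite substructure into the structure) extends to an automorphism. -/
def Homogeneous (Δ : Str ι ar D) : Prop :=
  ∀ S : Set D, S.Finite → ∀ f : S → D, IsEmb (Δ.on S) Δ f →
    ∃ g : Equiv.Perm D, IsAut Δ g ∧ ∀ x : S, g x = f x

/-- The substructures induced on `S` and on `T` are isomorphic. -/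
def IsoSub (Δ : Str ι ar D) (S T : Set D) : Prop :=
  ∃ f : S → T, Function.Bijective f ∧ IsEmb (Δ.on S) (Δ.on T) f

/-- The Ramsey property: for all finite substructures `A`, `B` there is a finite substructure `C`
such that for every 2-colouring of the copies of `A` in `C` some copy of `B` in `C` has all its
copies of `A` of one colour. -/
def RamseyProperty (Δ : Str ι ar D) : Prop :=
  ∀ A B : Finset D, ∃ C : Finset D, ∀ χ : Finset D → Bool,
    ∃ B' : Finset D, B' ⊆ C ∧ IsoSub Δ (B : Set D) (B' : Set D) ∧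
      ∀ A₁ A₂ : Finset D, A₁ ⊆ B' → A₂ ⊆ B' → IsoSub Δ (A : Set D) (A₁ : Set D) →
        IsoSub Δ (A : Set D) (A₂ : Set D) → χ A₁ = χ A₂

/-- The finite substructures are closed under free amalgamation of the relations other than the
order, with an arbitrary linear order on the amalgam: a finite structure `m` whose `lt` is a linear
order, which is the union of two parts `U` and `V` that both embed into `Δ`, and in which every
tuple of a relation `rel i` lies inside `U` or inside `V`, embeds into `Δ`. -/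
def FreeAmalgamation (Δ : Str ι ar D) : Prop :=
  ∀ (M : Type) (_ : Finite M) (m : Str ι ar M) (U V : Set M), IsStrictTotalOrder M m.lt →
    U ∪ V = Set.univ → (∃ f, IsEmb (m.on U) Δ f) → (∃ f, IsEmb (m.on V) Δ f) →
    (∀ i (t : Fin (ar i) → M), m.rel i t → (∀ k, t k ∈ U) ∨ (∀ k, t k ∈ V)) →
    ∃ f, IsEmb m Δ f

/-- First-order formulas in the variables `0, ..., n - 1`. -/
inductive Fml (ι : Type) (ar : ι → ℕ) : ℕ → Type
  | eq {n : ℕ} (a b : Fin n) : Fml ι ar n
  | lt {n : ℕ} (a b : Fin n) : Fml ι ar n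
  | rel {n : ℕ} (i : ι) (t : Fin (ar i) → Fin n) : Fml ι ar n
  | neg {n : ℕ} (φ : Fml ι ar n) : Fml ι ar n
  | conj {n : ℕ} (φ ψ : Fml ι ar n) : Fml ι ar n
  | ex {n : ℕ} (φ : Fml ι ar (n + 1)) : Fml ι ar n

/-- Satisfaction of a formula in a structure. -/
def Sat (Δ : Str ι ar D) : {n : ℕ} → Fml ι ar n → (Fin n → D) → Prop
  | _, Fml.eq a b, v => v a = v b
  | _, Fml.lt a b, v => Δ.lt (v a) (v b)
  | _, Fml.rel i t, v => Δ.rel i (fun k => v (t k))
  | _, Fml.neg φ, v => ¬ Sat Δ φ v
  | _, Fml.conj φ ψ, v => Sat Δ φ v ∧ Sat Δ ψ v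
  | _, Fml.ex φ, v => ∃ d : D, Sat Δ φ (Fin.snoc v d)

/-- `Γ` (given by the set `Γ n` of its `n`-ary relations for every `n`) is a reduct of `Δ`: all its
relations are first-order definable in `Δ` without parameters. -/
def IsReduct (Δ : Str ι ar D) (Γ : (n : ℕ) → Set (Set (Fin n → D))) : Prop :=
  ∀ n, ∀ R ∈ Γ n, ∃ φ : Fml ι ar n, R = {v | Sat Δ φ v}

/-- The `k`-ary polymorphisms of `Γ`. -/
def Pol (Γ : (n : ℕ) → Set (Set (Fin n → D))) (k : ℕ) : Set ((Fin k → D) → D) :=
  {f | ∀ n, ∀ R ∈ Γ n, ∀ t : Fin k → Fin n → D, (∀ j, t j ∈ R) →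
    (fun l => f (fun j => t j l)) ∈ R}

/-- The clone `C` (of operations of arity at least one on the set `X`) has a clone homomorphism to
the clone of projections on a two-element set. -/
def HasHomToProjections {X : Type} (C : (k : ℕ) → Set ((Fin k → X) → X)) : Prop :=
  ∃ ξ : (k : ℕ) → ((Fin k → X) → X) → ((Fin k → Bool) → Bool),
    (∀ k, 0 < k → ∀ f ∈ C k, ∃ i : Fin k, ξ k f = fun b => b i) ∧
    (∀ k (i : Fin k), ξ k (fun x => x i) = fun b => b i) ∧
    (∀ n m, 0 < n → 0 < m → ∀ f ∈ C n, ∀ g : Fin n → (Fin m → X) → X, (∀ i, g i ∈ C m) →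
      ξ m (fun x => f (fun i => g i x)) = fun b => ξ n f (fun i => ξ m (g i) b))

/-- Two `m`-tuples have the same type over the constants `c`: they lie in the same orbit of the
automorphisms that fix the constants. -/
def SameType (Δ : Str ι ar D) {n : ℕ} (c : Fin n → D) {m : ℕ} (x y : Fin m → D) : Prop :=
  ∃ g : Equiv.Perm D, IsAut Δ g ∧ (∀ i, g (c i) = c i) ∧ ∀ i, g (x i) = y i

theorem isAut_one (Δ : Str ι ar D) : IsAut Δ 1 :=
  ⟨fun _ _ h => h, fun _ _ => Iff.rfl, fun _ _ => Iff.rfl⟩

theorem IsAut.mul {Δ : Str ι ar D} {g h : Equiv.Perm D} (hg : IsAut Δ g) (hh : IsAut Δ h) :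
    IsAut Δ (g * h) :=
  ⟨(g * h).injective, fun x y => (hg.2.1 (h x) (h y)).trans (hh.2.1 x y),
    fun i t => (hg.2.2 i (fun k => h (t k))).trans (hh.2.2 i t)⟩

theorem IsAut.inv {Δ : Str ι ar D} {g : Equiv.Perm D} (hg : IsAut Δ g) : IsAut Δ g⁻¹ := by
  refine ⟨g⁻¹.injective, fun x y => ?_, fun i t => ?_⟩
  · have := hg.2.1 (g⁻¹ x) (g⁻¹ y)
    simpa using this.symm
  · have := hg.2.2 i (fun k => g⁻¹ (t k))
    simpa using this.symm

/-- Having the same type is an equivalence relation. -/
def typeSetoid (Δ : Str ι ar D) {n : ℕ} (c : Fin n → D) (m : ℕ) : Setoid (Fin m → D) where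
  r := SameType Δ c
  iseqv :=
    { refl := fun x => ⟨1, isAut_one Δ, fun _ => rfl, fun _ => rfl⟩
      symm := by
        rintro x y ⟨g, hg, hc, hx⟩
        refine ⟨g⁻¹, hg.inv, fun i => ?_, fun i => ?_⟩
        · rw [Equiv.Perm.inv_eq_iff_eq, hc i]
        · rw [Equiv.Perm.inv_eq_iff_eq, hx i]
      trans := by
        rintro x y z ⟨g, hg, hc, hx⟩ ⟨h, hh, hc', hy⟩
        refine ⟨h * g, hh.mul hg, fun i => ?_, fun i => ?_⟩
        · rw [Equiv.Perm.mul_apply, hc i, hc' i]
        · rw [Equiv.Perm.mul_apply, hx i, hy i] }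

/-- The set of `m`-types over the constants `c`. -/
def TypeSet (Δ : Str ι ar D) {n : ℕ} (c : Fin n → D) (m : ℕ) : Type :=
  Quotient (typeSetoid Δ c m)

/-- `f` is canonical for `Δ` with the constants `c`. -/
def IsCanonical (Δ : Str ι ar D) {n : ℕ} (c : Fin n → D) {k : ℕ} (f : (Fin k → D) → D) : Prop :=
  ∀ (m : ℕ) (a b : Fin k → Fin m → D), (∀ j, SameType Δ c (a j) (b j)) →
    SameType Δ c (fun l => f (fun j => a j l)) (fun l => f (fun j => b j l))

/-- The type clone: the operations on the set of `m`-types over `c` that are induced by the members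
of `C` that are canonical for `Δ` with the constants `c`. -/
def TypeClone (Δ : Str ι ar D) {n : ℕ} (c : Fin n → D) (C : (k : ℕ) → Set ((Fin k → D) → D))
    (m k : ℕ) : Set ((Fin k → TypeSet Δ c m) → TypeSet Δ c m) :=
  {φ | ∃ f ∈ C k, IsCanonical Δ c f ∧ ∀ a : Fin k → Fin m → D,
    φ (fun j => Quotient.mk (typeSetoid Δ c m) (a j)) =
      Quotient.mk (typeSetoid Δ c m) (fun l => f (fun j => a j l))}

end Pool.Agent.MP_f99268_lc
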