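import Pool.Agent.Lib.MP_f99268_lc.Chain

/-!
# Type clones of reducts
-/

namespace Pool.Agent.MP_f99268_lc

open Equiv Classical

variable {ι : Type} {ar : ι → ℕ} {D : Type}

theorem sat_aut {Δ : Str ι ar D} {g : Perm D} (hg : IsAut Δ g) :
    ∀ {n : ℕ} (φ : Fml ι ar n) (v : Fin n → D), Sat Δ φ (fun i => g (v i)) ↔ Sat Δ φ v
  | _, Fml.eq _ _, _ => g.injective.eq_iff
  | _, Fml.lt _ _, _ => hg.2.1 _ _
  | _, Fml.rel i t, v => hg.2.2 i (fun k => v (t k))
  | _, Fml.neg φ, v => not_congr (sat_aut hg φ v)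
  | _, Fml.conj φ ψ, v => and_congr (sat_aut hg φ v) (sat_aut hg ψ v)
  | _, Fml.ex φ, v => by
    have hsn : ∀ d : D, (Fin.snoc (fun i => g (v i)) (g d) : Fin _ → D) =
        fun i => g ((Fin.snoc v d : Fin _ → D) i) := by
      intro d
      funext i
      refine Fin.lastCases ?_ (fun i => ?_) i
      · simp
      · simp
    constructor
    · rintro ⟨d, hd⟩
      refine ⟨g⁻¹ d, ?_⟩
      rw [← sat_aut hg φ, ← hsn]
      have : g (g⁻¹ d) = d := g.apply_symm_apply d
      rwa [this]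
    · rintro ⟨d, hd⟩
      refine ⟨g d, ?_⟩
      rw [hsn, sat_aut hg φ]
      exact hd

theorem isClone_pol {Δ : Str ι ar D} {Γ : (n : ℕ) → Set (Set (Fin n → D))}
    (hΓ : IsReduct Δ Γ) : IsClone (autG Δ) (Pol Γ) where
  proj k i := fun n R _ t ht => ht i
  comp n m f g hf hg := fun p R hR t ht =>
    hf p R hR (fun i l => g i (fun j => t j l)) (fun i => hg i p R hR t ht)
  aut g hg := by
    intro n R hR t ht
    obtain ⟨φ, rfl⟩ := hΓ n R hR
    exact (sat_aut hg φ (t 0)).2 (ht 0)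
  closed k F hF := by
    intro n R hR t ht
    obtain ⟨F', hF', h⟩ := hF (Finset.univ.image fun jl : Fin k × Fin n => t jl.1 jl.2)
    have : (fun l => F (fun j => t j l)) = fun l => F' (fun j => t j l) := by
      funext l
      exact h _ (fun j => Finset.mem_image.2 ⟨(j, l), Finset.mem_univ _, rfl⟩)
    rw [this]
    exact hF' n R hR t ht

theorem sameType_iff {Δ : Str ι ar D} {B : Finset D} {n : ℕ} {c : Fin n → D}
    (hc : ∀ a, a ∈ B ↔ ∃ i, c i = a) {m : ℕ} (x y : Fin m → D) :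
    SameType Δ c x y ↔ Orb (autG Δ) B x y := by
  constructor
  · rintro ⟨g, hg, h1, h2⟩
    refine ⟨g, mem_st.2 ⟨hg, fun a ha => ?_⟩, h2⟩
    obtain ⟨i, rfl⟩ := (hc a).1 ha
    exact h1 i
  · rintro ⟨g, hg, h⟩
    exact ⟨g, st_le hg, fun i => (mem_st.1 hg).2 _ ((hc _).2 ⟨i, rfl⟩), h⟩

theorem isCanonical_iff {Δ : Str ι ar D} {B : Finset D} {n : ℕ} {c : Fin n → D}
    (hc : ∀ a, a ∈ B ↔ ∃ i, c i = a) {k : ℕ} (f : (Fin k → D) → D) :
    IsCanonical Δ c f ↔ Can (autG Δ) B B f := by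
  unfold IsCanonical Can
  constructor
  · intro h m x y hxy
    rw [← sameType_iff hc]
    exact h m x y (fun j => (sameType_iff hc _ _).2 (hxy j))
  · intro h m x y hxy
    rw [sameType_iff hc]
    exact h m x y (fun j => (sameType_iff hc _ _).1 (hxy j))

section Induced

variable {Δ : Str ι ar D} {n : ℕ} {c : Fin n → D} {m : ℕ}

/-- The operation on types induced by an operation. -/
noncomputable def ind (Δ : Str ι ar D) {n : ℕ} (c : Fin n → D) (m : ℕ) {k : ℕ}
    (f : (Fin k → D) → D) : (Fin k → TypeSet Δ c m) → TypeSet Δ c m :=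
  fun q => Quotient.mk (typeSetoid Δ c m)
    (fun l => f (fun j => @Quotient.out _ (typeSetoid Δ c m) (q j) l))

theorem out_mk (a : Fin m → D) : SameType Δ c
    (@Quotient.out _ (typeSetoid Δ c m) (Quotient.mk (typeSetoid Δ c m) a)) a :=
  @Quotient.mk_out _ (typeSetoid Δ c m) a

theorem ind_mem {C : (k : ℕ) → Set ((Fin k → D) → D)} {k : ℕ} {f : (Fin k → D) → D}
    (hf : f ∈ C k) (hcan : IsCanonical Δ c f) : ind Δ c m f ∈ TypeClone Δ c C m k :=
  ⟨f, hf, hcan, fun a => Quotient.sound (hcan m _ a (fun j => out_mk (a j)))⟩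

theorem ind_proj {k : ℕ} (i : Fin k) :
    ind Δ c m (fun x : Fin k → D => x i) = fun q => q i := by
  funext q
  exact @Quotient.out_eq _ (typeSetoid Δ c m) (q i)

theorem ind_comp {k l : ℕ} {f : (Fin k → D) → D} (hf : IsCanonical Δ c f)
    (g : Fin k → (Fin l → D) → D) :
    ind Δ c m (fun x => f (fun i => g i x)) =
      fun q => ind Δ c m f (fun i => ind Δ c m (g i) q) := by
  funext q
  apply Quotient.sound
  exact (typeSetoid Δ c m).symm (hf m _ _ (fun j => out_mk _))

end Induced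

theorem eval_inj {k : ℕ} {i j : Fin k} (h : (fun b : Fin k → Bool => b i) = fun b => b j) :
    i = j := by
  have := congrFun h (fun x => decide (x = i))
  simp only [decide_true] at this
  exact (decide_eq_true_iff.1 this.symm).symm

/-- A homomorphism of a type clone to projections. -/
theorem exists_homC {Δ : Str ι ar D} {C : (k : ℕ) → Set ((Fin k → D) → D)} {B : Finset D}
    {n : ℕ} {c : Fin n → D} (hc : ∀ a, a ∈ B ↔ ∃ i, c i = a) {m : ℕ}
    (h : HasHomToProjections (TypeClone Δ c C m)) : Nonempty (HomC (autG Δ) C B) := by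
  obtain ⟨ξ, h1, h2, h3⟩ := h
  let χ : (k : ℕ) → ((Fin (k + 1) → D) → D) → Fin (k + 1) := fun k f =>
    if hex : ∃ i : Fin (k + 1), ξ (k + 1) (ind Δ c m f) = fun b => b i then hex.choose else 0
  have hχ : ∀ k (f : (Fin (k + 1) → D) → D), (∃ i : Fin (k + 1),
      ξ (k + 1) (ind Δ c m f) = fun b => b i) →
      ξ (k + 1) (ind Δ c m f) = fun b => b (χ k f) := by
    intro k f hex
    have e : χ k f = hex.choose := dif_pos hex
    rw [e]
    exact hex.choose_spec
  have hχ' : ∀ k (f : (Fin (k + 1) → D) → D), f ∈ C (k + 1) → Can (autG Δ) B B f →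
      ξ (k + 1) (ind Δ c m f) = fun b => b (χ k f) := by
    intro k f hf hcan
    exact hχ k f (h1 (k + 1) (Nat.succ_pos k) _ (ind_mem hf ((isCanonical_iff hc f).2 hcan)))
  have huniq : ∀ k (f : (Fin (k + 1) → D) → D) (i : Fin (k + 1)),
      ξ (k + 1) (ind Δ c m f) = (fun b => b i) → χ k f = i := by
    intro k f i hi
    exact eval_inj ((hχ k f ⟨i, hi⟩).symm.trans hi)
  refine ⟨{ ξ := χ, proj := ?_, comp := ?_, inv := ?_ }⟩
  · intro k i
    apply huniq
    rw [ind_proj]
    exact h2 (k + 1) i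
  · intro p q f g hf hfc hg hgc
    apply huniq
    rw [ind_comp ((isCanonical_iff hc f).2 hfc), h3 (p + 1) (q + 1) (Nat.succ_pos _)
      (Nat.succ_pos _) _ (ind_mem hf ((isCanonical_iff hc f).2 hfc)) _
      (fun i => ind_mem (hg i) ((isCanonical_iff hc (g i)).2 (hgc i))), hχ' p f hf hfc]
    exact hχ' q _ (hg _) (hgc _)
  · intro k f f' hf hfc hf' hfc' hact
    apply huniq
    have : ind Δ c m f = ind Δ c m f' := by
      funext q
      apply Quotient.sound
      exact (sameType_iff hc _ _).2 (hact m _)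
    rw [this]
    exact hχ' k f' hf' hfc'

/-- From values in `Fin (k + 1)` to a homomorphism. -/
theorem hasHom_of {C : (k : ℕ) → Set ((Fin k → D) → D)}
    (h : ∃ ξ : (k : ℕ) → ((Fin (k + 1) → D) → D) → Fin (k + 1),
      (∀ k (i : Fin (k + 1)), ξ k (fun x => x i) = i) ∧
      ∀ n m (f : (Fin (n + 1) → D) → D) (g : Fin (n + 1) → (Fin (m + 1) → D) → D),
        f ∈ C (n + 1) → (∀ i, g i ∈ C (m + 1)) →
        ξ m (fun x => f (fun i => g i x)) = ξ m (g (ξ n f))) : HasHomToProjections C := by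
  obtain ⟨ξ, h1, h2⟩ := h
  refine ⟨fun k => match k with
    | 0 => fun _ _ => false
    | k + 1 => fun f b => b (ξ k f), ?_, ?_, ?_⟩
  · intro k hk f hf
    obtain ⟨k, rfl⟩ := Nat.exists_eq_succ_of_ne_zero hk.ne'
    exact ⟨ξ k f, rfl⟩
  · intro k i
    cases k with
    | zero => exact i.elim0
    | succ k =>
      funext b
      exact congrArg b (h1 k i)
  · intro n m hn hm f hf g hg
    obtain ⟨n, rfl⟩ := Nat.exists_eq_succ_of_ne_zero hn.ne'
    obtain ⟨m, rfl⟩ := Nat.exists_eq_succ_of_ne_zero hm.ne'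
    funext b
    exact congrArg b (h2 n m f g hf hg)

/-- The general form: a chain of glueing steps for the automorphism group gives the conclusion. -/
theorem of_glue [Finite ι] [Countable D] {Δ : Str ι ar D}
    (hlin : IsStrictTotalOrder D Δ.lt) (hΔ : Homogeneous Δ) (hR : RamseyProperty Δ)
    (gl : Glue (autG Δ)) {Γ : (n : ℕ) → Set (Set (Fin n → D))} (hΓ : IsReduct Δ Γ)
    (hno : ¬ HasHomToProjections (Pol Γ)) :
    ∃ (n : ℕ) (c : Fin n → D), ∀ m, ¬ HasHomToProjections (TypeClone Δ c (Pol Γ) m) := by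
  by_contra hcon
  push Not at hcon
  have hhom : ∀ B : Finset D, Nonempty (HomC (autG Δ) (Pol Γ) B) := by
    intro B
    obtain ⟨m, hm⟩ := hcon B.card (fun i => (B.equivFin.symm i : D))
    refine exists_homC (fun a => ?_) hm
    constructor
    · intro ha
      exact ⟨B.equivFin ⟨a, ha⟩, by simp⟩
    · rintro ⟨i, rfl⟩
      exact (B.equivFin.symm i).2
  let X : Ctx D :=
    { G := autG Δ
      C := Pol Γ
      hR := fr_autG hlin hΔ hR
      hO := olig_autG hlin hΔ
      hC := isClone_pol hΓ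
      hom := fun B => (hhom B).some }
  exact hno (hasHom_of (X.exists_hom gl (fd_autG hlin hΔ)))

theorem main [Finite ι] [Countable D] [Nonempty D] {Δ : Str ι ar D}
    (hlin : IsStrictTotalOrder D Δ.lt) (hΔ : Homogeneous Δ) (hR : RamseyProperty Δ)
    (hF : FreeAmalgamation Δ) {Γ : (n : ℕ) → Set (Set (Fin n → D))} (hΓ : IsReduct Δ Γ)
    (hno : ¬ HasHomToProjections (Pol Γ)) :
    ∃ (n : ℕ) (c : Fin n → D), ∀ m, ¬ HasHomToProjections (TypeClone Δ c (Pol Γ) m) := by
  obtain ⟨gl⟩ := exists_glue (Classical.arbitrary D) hlin hΔ hF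
  exact of_glue hlin hΔ hR gl hΓ hno

end Pool.Agent.MP_f99268_lc
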