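import Pool.Agent.Lib.MP_f99268_lc.Struct

/-!
# Free amalgamation gives a chain of glueing steps
-/

namespace Pool.Agent.MP_f99268_lc

open Equiv Classical

variable {ι : Type} {ar : ι → ℕ} {D : Type}

/-- No relation other than the order relates `B` and `Y`. -/
def Apart (Δ : Str ι ar D) (B Y : Set D) : Prop :=
  ∀ i (t : Fin (ar i) → D), Δ.rel i t → (∀ k, t k ∈ B ∨ t k ∈ Y) →
    (∀ k, t k ∈ B) ∨ (∀ k, t k ∈ Y)

theorem Apart.mono {Δ : Str ι ar D} {B Y B' Y' : Set D} (h : Apart Δ B Y) (hB : B' ⊆ B)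
    (hY : Y' ⊆ Y) (hd : Disjoint B Y) : Apart Δ B' Y' := by
  intro i t ht hk
  rcases h i t ht (fun k => (hk k).imp (fun h => hB h) (fun h => hY h)) with h1 | h1
  · left
    intro k
    rcases hk k with h2 | h2
    · exact h2
    · exact absurd (hY h2) (Set.disjoint_left.1 hd (h1 k))
  · right
    intro k
    rcases hk k with h2 | h2
    · exact absurd (h1 k) (Set.disjoint_left.1 hd (hB h2))
    · exact h2

/-- Two embeddings of a finite structure differ by an automorphism. -/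
theorem two_emb {Δ : Str ι ar D} (hΔ : Homogeneous Δ) {N : Type} [Finite N] {m : Str ι ar N}
    {f₁ f₂ : N → D} (h₁ : IsEmb m Δ f₁) (h₂ : IsEmb m Δ f₂) :
    ∃ g ∈ autG Δ, ∀ v, g (f₁ v) = f₂ v := by
  let φ : D → D := fun a => if h : ∃ v, f₁ v = a then f₂ h.choose else a
  have hφ : ∀ v, φ (f₁ v) = f₂ v := by
    intro v
    have h : ∃ v', f₁ v' = f₁ v := ⟨v, rfl⟩
    have e : φ (f₁ v) = f₂ h.choose := dif_pos h
    rw [e, h₁.1 h.choose_spec]
  obtain ⟨g, hg, h⟩ := hΔ.ext (S := Set.range f₁) (Set.finite_range f₁) (f := φ) (by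
    refine ⟨?_, ?_, ?_⟩
    · rintro _ ⟨v, rfl⟩ _ ⟨w, rfl⟩ hab
      rw [hφ, hφ] at hab
      rw [h₂.1 hab]
    · rintro _ ⟨v, rfl⟩ _ ⟨w, rfl⟩
      rw [hφ, hφ, h₂.2.1, h₁.2.1]
    · intro i t ht
      choose v hv using ht
      have e1 : t = fun k => f₁ (v k) := by
        funext k
        exact (hv k).symm
      have e2 : (fun k => φ (t k)) = fun k => f₂ (v k) := by
        funext k
        rw [← hv k, hφ]
      rw [e2, e1, h₂.2.2, h₁.2.2])
  exact ⟨g, hg, fun v => by rw [h _ ⟨v, rfl⟩, hφ]⟩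

/-- Extension property: a finite set `A` can be moved over `A₀ ⊆ A` such that the new points lie
above `S` and are not related to `S` outside of `A₀`. -/
theorem extension {Δ : Str ι ar D} (hlin : IsStrictTotalOrder D Δ.lt) (hΔ : Homogeneous Δ)
    (hF : FreeAmalgamation Δ) (A₀ S A : Finset D) (h0S : A₀ ⊆ S) (h0A : A₀ ⊆ A)
    (hlt : ∀ a ∈ A₀, ∀ b ∈ A, b ∉ A₀ → Δ.lt a b) :
    ∃ g ∈ autG Δ, (∀ a ∈ A₀, g a = a) ∧ (∀ s ∈ S, ∀ a ∈ A, a ∉ A₀ → Δ.lt s (g a)) ∧
      ∀ i (t : Fin (ar i) → D), Δ.rel i t → (∀ k, t k ∈ S ∨ ∃ a ∈ A, t k = g a) →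
        (∀ k, t k ∈ S) ∨ (∀ k, ∃ a ∈ A, t k = g a) := by
  have hirr : ∀ a, ¬ Δ.lt a a := fun a => hlin.irrefl a
  have htr : ∀ a b c, Δ.lt a b → Δ.lt b c → Δ.lt a c := fun a b c => hlin.trans a b c
  have htri : ∀ a b, ¬ Δ.lt a b → ¬ Δ.lt b a → a = b := fun a b => hlin.trichotomous a b
  have hfin : Finite ({s // s ∈ S} ⊕ {a // a ∈ A ∧ a ∉ A₀}) := by
    have : Finite {a // a ∈ A ∧ a ∉ A₀} :=
      Finite.of_injective (fun a : {a // a ∈ A ∧ a ∉ A₀} => (⟨a.1, a.2.1⟩ : {a // a ∈ A}))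
        (fun a b hab => by
          simp only [Subtype.mk.injEq] at hab
          exact Subtype.ext hab)
    infer_instance
  let N : Type := {s // s ∈ S} ⊕ {a // a ∈ A ∧ a ∉ A₀}
  let vl : N → D := fun v => v.elim (fun s => s.1) (fun a => a.1)
  let U : Set N := Set.range Sum.inl
  let V : Set N := {v | vl v ∈ A₀} ∪ Set.range Sum.inr
  let m : Str ι ar N :=
    { lt := fun v w => Sum.elim (fun s => Sum.elim (fun s' => Δ.lt s.1 s'.1) (fun _ => True) w)
        (fun a => Sum.elim (fun _ => False) (fun a' => Δ.lt a.1 a'.1) w) v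
      rel := fun i t => Δ.rel i (fun k => vl (t k)) ∧ ((∀ k, t k ∈ U) ∨ (∀ k, t k ∈ V)) }
  have hm : IsStrictTotalOrder N m.lt :=
    { trichotomous := by
        rintro (s | a) (s' | a') h1 h2
        · exact congrArg Sum.inl (Subtype.ext (htri _ _ h1 h2))
        · exact absurd trivial h1
        · exact absurd trivial h2
        · exact congrArg Sum.inr (Subtype.ext (htri _ _ h1 h2))
      irrefl := by
        rintro (s | a)
        · exact hirr _
        · exact hirr _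
      trans := by
        rintro (s | a) (s' | a') (s'' | a'') h1 h2
        · exact htr _ _ _ h1 h2
        · trivial
        · exact absurd h2 id
        · trivial
        · exact absurd h1 id
        · exact absurd h1 id
        · exact absurd h2 id
        · exact htr _ _ _ h1 h2 }
  have hUV : U ∪ V = Set.univ := by
    ext v
    rcases v with s | a
    · simp [U]
    · simp [V]
  have hU : IsEmb (m.on U) Δ (fun v => vl v.1) := by
    refine ⟨?_, ?_, ?_⟩
    · rintro ⟨_, s, rfl⟩ ⟨_, s', rfl⟩ h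
      have h' : s.1 = s'.1 := h
      rw [Subtype.mk.injEq, Subtype.ext h']
    · rintro ⟨_, s, rfl⟩ ⟨_, s', rfl⟩
      exact Iff.rfl
    · intro i t
      constructor
      · exact fun h => ⟨h, Or.inl fun k => (t k).2⟩
      · exact fun h => h.1
  have hV : IsEmb (m.on V) Δ (fun v => vl v.1) := by
    refine ⟨?_, ?_, ?_⟩
    · rintro ⟨s | a, h1⟩ ⟨s' | a', h2⟩ h
      · have h' : s.1 = s'.1 := h
        rw [Subtype.mk.injEq, Subtype.ext h']
      · have h' : s.1 = a'.1 := h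
        rcases h1 with h1 | ⟨x, hx⟩
        · have h1' : s.1 ∈ A₀ := h1
          rw [h'] at h1'
          exact absurd h1' a'.2.2
        · cases hx
      · have h' : a.1 = s'.1 := h
        rcases h2 with h2 | ⟨x, hx⟩
        · have h2' : s'.1 ∈ A₀ := h2
          rw [← h'] at h2'
          exact absurd h2' a.2.2
        · cases hx
      · have h' : a.1 = a'.1 := h
        rw [Subtype.mk.injEq, Subtype.ext h']
    · rintro ⟨s | a, h1⟩ ⟨s' | a', h2⟩
      · exact Iff.rfl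
      · rcases h1 with h1 | ⟨x, hx⟩
        · exact iff_of_true (hlt _ h1 _ a'.2.1 a'.2.2) trivial
        · cases hx
      · rcases h2 with h2 | ⟨x, hx⟩
        · refine iff_of_false (fun h => ?_) id
          exact hirr _ (htr _ _ _ (hlt _ h2 _ a.2.1 a.2.2) h)
        · cases hx
      · exact Iff.rfl
    · intro i t
      constructor
      · exact fun h => ⟨h, Or.inr fun k => (t k).2⟩
      · exact fun h => h.1
  obtain ⟨f, hf⟩ := hF N hfin m U V hm hUV ⟨_, hU⟩ ⟨_, hV⟩ (fun i t h => h.2)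
  have hfW : ∀ W : Set N, IsEmb (m.on W) Δ (fun v => f v.1) := fun W =>
    ⟨fun a b hab => Subtype.ext (hf.1 hab), fun x y => hf.2.1 x y,
      fun i t => hf.2.2 i (fun k => t k)⟩
  obtain ⟨g₁, hg₁, h₁⟩ := two_emb hΔ hU (hfW U)
  obtain ⟨g₂, hg₂, h₂⟩ := two_emb hΔ hV (hfW V)
  have h₁' : ∀ s : {s // s ∈ S}, g₁ s.1 = f (Sum.inl s) := fun s => h₁ ⟨Sum.inl s, s, rfl⟩
  have h₂0 : ∀ a (h : a ∈ A₀), g₂ a = f (Sum.inl ⟨a, h0S h⟩) := fun a h =>
    h₂ ⟨Sum.inl ⟨a, h0S h⟩, Or.inl h⟩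
  have h₂' : ∀ a : {a // a ∈ A ∧ a ∉ A₀}, g₂ a.1 = f (Sum.inr a) := fun a =>
    h₂ ⟨Sum.inr a, Or.inr ⟨a, rfl⟩⟩
  refine ⟨g₁⁻¹ * g₂, (autG Δ).mul_mem ((autG Δ).inv_mem hg₁) hg₂, ?_, ?_, ?_⟩
  · intro a ha
    show g₁⁻¹ (g₂ a) = a
    rw [Perm.inv_eq_iff_eq, h₂0 a ha]
    exact (h₁' ⟨a, h0S ha⟩).symm
  · intro s hs a ha ha0
    have e : g₁ ((g₁⁻¹ * g₂) a) = f (Sum.inr ⟨a, ha, ha0⟩) := by
      exact (g₁.apply_symm_apply (g₂ a)).trans (h₂' ⟨a, ha, ha0⟩)
    rw [← hg₁.2.1 s _, e, h₁' ⟨s, hs⟩, hf.2.1]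
    trivial
  · intro i t ht hk
    have hN : ∀ k, ∃ v : N, g₁ (t k) = f v := by
      intro k
      rcases hk k with h | ⟨a, ha, h⟩
      · exact ⟨Sum.inl ⟨t k, h⟩, h₁' ⟨t k, h⟩⟩
      · by_cases ha0 : a ∈ A₀
        · refine ⟨Sum.inl ⟨a, h0S ha0⟩, ?_⟩
          rw [h, ← h₂0 a ha0]
          exact g₁.apply_symm_apply (g₂ a)
        · refine ⟨Sum.inr ⟨a, ha, ha0⟩, ?_⟩
          rw [h, ← h₂' ⟨a, ha, ha0⟩]
          exact g₁.apply_symm_apply (g₂ a)
    choose v hv using hN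
    have h3 : Δ.rel i (fun k => f (v k)) := by
      have : (fun k => f (v k)) = fun k => g₁ (t k) := by
        funext k
        exact (hv k).symm
      rw [this]
      exact (hg₁.2.2 i t).2 ht
    rcases ((hf.2.2 i v).1 h3).2 with h4 | h4
    · left
      intro k
      obtain ⟨s, hs⟩ := h4 k
      have : g₁ (t k) = g₁ s.1 := by rw [hv k, ← hs, h₁']
      rw [g₁.injective this]
      exact s.2
    · right
      intro k
      rcases h4 k with h5 | ⟨a, ha⟩
      · -- the value lies in `A₀`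
        rcases hvk : v k with s | a
        · rw [hvk] at h5
          have h5' : s.1 ∈ A₀ := h5
          refine ⟨s.1, h0A h5', ?_⟩
          show t k = g₁⁻¹ (g₂ s.1)
          rw [Perm.eq_inv_iff_eq, hv k, hvk, h₂0 _ h5']
        · refine ⟨a.1, a.2.1, ?_⟩
          show t k = g₁⁻¹ (g₂ a.1)
          rw [Perm.eq_inv_iff_eq, hv k, hvk, h₂']
      · refine ⟨a.1, a.2.1, ?_⟩
        show t k = g₁⁻¹ (g₂ a.1)
        rw [Perm.eq_inv_iff_eq, hv k, ← ha, h₂']

end Pool.Agent.MP_f99268_lc
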