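import Pool.Agent.Lib.MP_f99268_lc.Basic

/-!
# Product Ramsey theorem and canonisation on finite sets
-/

namespace Pool.Agent.MP_f99268_lc

open Equiv Classical

variable {D : Type}

/-- The Ramsey property of `H` for colourings (with colours in `κ`) of the maps `g|A`, `g ∈ H`. -/
def FR (H : Subgroup (Perm D)) (κ : Type) : Prop :=
  ∀ A B : Finset D, ∃ C : Finset D, ∀ χ : ({a // a ∈ A} → D) → κ,
    ∃ h ∈ H, (∀ b ∈ B, h b ∈ C) ∧ ∀ g ∈ H, ∀ g' ∈ H,
      (∀ a ∈ A, ∃ b ∈ B, g a = h b) → (∀ a ∈ A, ∃ b ∈ B, g' a = h b) →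
      χ (fun a => g a) = χ (fun a => g' a)

theorem FR.of_injective {H : Subgroup (Perm D)} {κ κ' : Type} (f : κ → κ')
    (hf : Function.Injective f) (h : FR H κ') : FR H κ := by
  intro A B
  obtain ⟨C, hC⟩ := h A B
  refine ⟨C, fun χ => ?_⟩
  obtain ⟨h, hh, hB, hχ⟩ := hC (fun φ => f (χ φ))
  exact ⟨h, hh, hB, fun g hg g' hg' h1 h2 => hf (hχ g hg g' hg' h1 h2)⟩

theorem FR.prod {H : Subgroup (Perm D)} {κ κ' : Type} (h : FR H κ) (h' : FR H κ') :
    FR H (κ × κ') := by
  intro A B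
  obtain ⟨C₁, hC₁⟩ := h A B
  obtain ⟨C₂, hC₂⟩ := h' A C₁
  refine ⟨C₂, fun χ => ?_⟩
  obtain ⟨h₂, hh₂, hB₂, hχ₂⟩ := hC₂ (fun φ => (χ φ).2)
  obtain ⟨h₁, hh₁, hB₁, hχ₁⟩ := hC₁ (fun φ => (χ (fun a => h₂ (φ a))).1)
  refine ⟨h₂ * h₁, H.mul_mem hh₂ hh₁, fun b hb => hB₂ _ (hB₁ b hb), ?_⟩
  intro g hg g' hg' hgB hg'B
  apply Prod.ext
  · have := hχ₁ (h₂⁻¹ * g) (H.mul_mem (H.inv_mem hh₂) hg) (h₂⁻¹ * g')
      (H.mul_mem (H.inv_mem hh₂) hg')
      (fun a ha => by
        obtain ⟨b, hb, e⟩ := hgB a ha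
        exact ⟨b, hb, by simp [e]⟩)
      (fun a ha => by
        obtain ⟨b, hb, e⟩ := hg'B a ha
        exact ⟨b, hb, by simp [e]⟩)
    simpa using this
  · exact hχ₂ g hg g' hg'
      (fun a ha => by
        obtain ⟨b, hb, e⟩ := hgB a ha
        exact ⟨_, hB₁ b hb, e⟩)
      (fun a ha => by
        obtain ⟨b, hb, e⟩ := hg'B a ha
        exact ⟨_, hB₁ b hb, e⟩)

theorem FR.of_bool {H : Subgroup (Perm D)} (h : FR H Bool) (κ : Type) [Finite κ] : FR H κ := by
  have h1 : ∀ n : ℕ, FR H (Fin n → Bool) := by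
    intro n
    induction n with
    | zero =>
      apply h.of_injective (fun _ => true)
      intro a b _
      funext i
      exact i.elim0
    | succ n ih =>
      apply (h.prod ih).of_injective (fun f => (f 0, fun i => f i.succ))
      intro a b hab
      simp only [Prod.mk.injEq] at hab
      funext i
      refine Fin.cases hab.1 (fun i => congrFun hab.2 i) i
  obtain ⟨n, ⟨e⟩⟩ := Finite.exists_equiv_fin κ
  apply (h1 n).of_injective (fun k => fun i => decide (e k = i))
  intro a b hab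
  have := congrFun hab (e a)
  simp at this
  exact this.symm

/-- Adding finitely many constants keeps the Ramsey property. -/
theorem FR.const {G : Subgroup (Perm D)} {κ : Type} (h : FR G κ) (c : Finset D) :
    FR (st G c) κ := by
  intro A B
  obtain ⟨C', hC'⟩ := h (A ∪ c) (B ∪ c)
  let hθ : ({a // a ∈ c} → D) → Perm D := fun θ =>
    if hex : ∃ g ∈ G, ∀ a, g (θ a) = a then hex.choose else 1
  have hθ1 : ∀ θ, (∃ g ∈ G, ∀ a : {a // a ∈ c}, g (θ a) = a) →
      hθ θ ∈ G ∧ ∀ a, hθ θ (θ a) = a := by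
    intro θ hex
    have : hθ θ = hex.choose := dif_pos hex
    rw [this]
    exact hex.choose_spec
  refine ⟨(Fintype.piFinset fun _ : {a // a ∈ c} => C').biUnion fun θ => C'.image (hθ θ),
    fun χ => ?_⟩
  obtain ⟨h, hh, hB, hχ⟩ := hC' (fun φ => χ (fun a =>
    hθ (fun b => φ ⟨b.1, Finset.mem_union_right _ b.2⟩) (φ ⟨a.1, Finset.mem_union_left _ a.2⟩)))
  obtain ⟨hg1, hg2⟩ := hθ1 (fun b => h b) ⟨h⁻¹, G.inv_mem hh, fun a => by simp⟩
  set h₀ := hθ (fun b => h b) with hh₀
  refine ⟨h₀ * h, ?_, ?_, ?_⟩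
  · rw [mem_st]
    exact ⟨G.mul_mem hg1 hh, fun a ha => hg2 ⟨a, ha⟩⟩
  · intro b hb
    rw [Finset.mem_biUnion]
    refine ⟨fun b => h b, ?_, ?_⟩
    · rw [Fintype.mem_piFinset]
      intro a
      exact hB _ (Finset.mem_union_right _ a.2)
    · rw [Finset.mem_image]
      exact ⟨h b, hB _ (Finset.mem_union_left _ hb), rfl⟩
  · intro g hg g' hg' hgB hg'B
    have key : ∀ g ∈ st G c, (∀ a ∈ A, ∃ b ∈ B, g a = (h₀ * h) b) →
        (h₀⁻¹ * g ∈ G) ∧ (∀ a ∈ A ∪ c, ∃ b ∈ B ∪ c, (h₀⁻¹ * g) a = h b) ∧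
        (fun b : {a // a ∈ c} => (h₀⁻¹ * g) b) = (fun b : {a // a ∈ c} => h b) := by
      intro g hg hgB
      have h3 : (fun b : {a // a ∈ c} => (h₀⁻¹ * g) b) = (fun b : {a // a ∈ c} => h b) := by
        funext b
        have e1 := (mem_st.1 hg).2 b b.2
        have e2 := hg2 b
        show h₀⁻¹ (g b) = h b
        rw [e1, Perm.inv_eq_iff_eq]
        exact e2.symm
      refine ⟨G.mul_mem (G.inv_mem hg1) (mem_st.1 hg).1, fun a ha => ?_, h3⟩
      rw [Finset.mem_union] at ha
      rcases ha with ha | ha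
      · obtain ⟨b, hb, e⟩ := hgB a ha
        refine ⟨b, Finset.mem_union_left _ hb, ?_⟩
        show h₀⁻¹ (g a) = h b
        rw [e]
        simp
      · exact ⟨a, Finset.mem_union_right _ ha, congrFun h3 ⟨a, ha⟩⟩
    obtain ⟨k1, k2, k3⟩ := key g hg hgB
    obtain ⟨l1, l2, l3⟩ := key g' hg' hg'B
    have := hχ _ k1 _ l1 k2 l2
    simp only at this
    rw [k3, l3, ← hh₀] at this
    simpa using this

/-- Product version. -/
def PR (H : Subgroup (Perm D)) (p : ℕ) : Prop :=
  ∀ (κ : Type) [Finite κ] (A B : Finset D), ∃ C : Finset D,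
    ∀ χ : (Fin p → {a // a ∈ A} → D) → κ,
    ∃ h : Fin p → Perm D, (∀ j, h j ∈ H) ∧ (∀ j, ∀ b ∈ B, h j b ∈ C) ∧
      ∀ g g' : Fin p → Perm D, (∀ j, g j ∈ H) → (∀ j, g' j ∈ H) →
      (∀ j, ∀ a ∈ A, ∃ b ∈ B, g j a = h j b) → (∀ j, ∀ a ∈ A, ∃ b ∈ B, g' j a = h j b) →
      χ (fun j a => g j a) = χ (fun j a => g' j a)

theorem PR.of_FR {H : Subgroup (Perm D)} (h : FR H Bool) (p : ℕ) : PR H p := by
  induction p with
  | zero =>
    intro κ _ A B
    refine ⟨∅, fun χ => ⟨fun _ => 1, fun _ => H.one_mem, fun j => j.elim0, ?_⟩⟩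
    intro g g' _ _ _ _
    congr 1
    funext j
    exact j.elim0
  | succ p ih =>
    intro κ _ A B
    obtain ⟨Cp, hCp⟩ := ih κ A B
    obtain ⟨C₁, hC₁⟩ := h.of_bool ((Fin p → {a // a ∈ A} → {x // x ∈ Cp}) → κ) A B
    refine ⟨Cp ∪ C₁, fun χ => ?_⟩
    obtain ⟨h0, hh0, hB0, hχ0⟩ := hC₁ (fun φ => fun ψ =>
      χ (Fin.cons φ (fun j a => ((ψ j a : {x // x ∈ Cp}) : D))))
    by_cases hex : ∃ g0 ∈ H, ∀ a ∈ A, ∃ b ∈ B, g0 a = h0 b
    · obtain ⟨g0, hg0, hg0B⟩ := hex
      obtain ⟨ht, hht, hBt, hχt⟩ := hCp (fun ψ =>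
        χ (Fin.cons (fun a => g0 a) ψ))
      refine ⟨Fin.cons h0 ht, ?_, ?_, ?_⟩
      · intro j
        refine Fin.cases ?_ (fun j => ?_) j
        · simpa using hh0
        · simpa using hht j
      · intro j
        refine Fin.cases ?_ (fun j => ?_) j
        · intro b hb
          exact Finset.mem_union_right _ (by simpa using hB0 b hb)
        · intro b hb
          exact Finset.mem_union_left _ (by simpa using hBt j b hb)
      · intro g g' hg hg' hgB hg'B
        have key : ∀ g : Fin (p + 1) → Perm D, (∀ j, g j ∈ H) →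
            (∀ j, ∀ a ∈ A, ∃ b ∈ B, g j a = (Fin.cons h0 ht : Fin (p + 1) → Perm D) j b) →
            χ (fun j a => g j a) =
              χ (Fin.cons (fun a => g0 a) (fun (j : Fin p) (a : {a // a ∈ A}) => g j.succ a)) := by
          intro g hg hgB
          have e1 : (fun (j : Fin (p + 1)) (a : {a // a ∈ A}) => g j a) =
              Fin.cons (fun a : {a // a ∈ A} => g 0 a)
                (fun (j : Fin p) (a : {a // a ∈ A}) => g (Fin.succ j) a) := by
            funext j
            refine Fin.cases ?_ (fun j => ?_) j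
            · simp
            · simp
          rw [e1]
          have h2 := hχ0 (g 0) (hg 0) g0 hg0 (fun a ha => by simpa using hgB 0 a ha) hg0B
          have h3 : ∀ (j : Fin p) (a : {a // a ∈ A}), g (Fin.succ j) a ∈ Cp := by
            intro j a
            obtain ⟨b, hb, e⟩ := hgB j.succ a a.2
            rw [e]
            simpa using hBt j b hb
          exact congrFun h2 (fun j a => ⟨g (Fin.succ j) a, h3 j a⟩)
        rw [key g hg hgB, key g' hg' hg'B]
        exact hχt (fun j => g j.succ) (fun j => g' j.succ) (fun j => hg _) (fun j => hg' _)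
          (fun j a ha => by simpa using hgB j.succ a ha)
          (fun j a ha => by simpa using hg'B j.succ a ha)
    · obtain ⟨ht, hht, hBt, -⟩ := hCp (fun ψ =>
        χ (Fin.cons (fun a => h0 a) ψ))
      refine ⟨Fin.cons h0 ht, ?_, ?_, ?_⟩
      · intro j
        refine Fin.cases ?_ (fun j => ?_) j
        · simpa using hh0
        · simpa using hht j
      · intro j
        refine Fin.cases ?_ (fun j => ?_) j
        · intro b hb
          exact Finset.mem_union_right _ (by simpa using hB0 b hb)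
        · intro b hb
          exact Finset.mem_union_left _ (by simpa using hBt j b hb)
      · intro g g' hg hg' hgB hg'B
        exact absurd ⟨g 0, hg 0, fun a ha => by simpa using hgB 0 a ha⟩ hex

/-- Canonisation on a finite set. -/
theorem canon_finite {G : Subgroup (Perm D)} (hR : FR G Bool) (hO : Olig G) (c₀ c' : Finset D)
    (I : Type) [Finite I] (p : ℕ) (F : I → (Fin p → D) → D) (A : Finset D) :
    ∃ β : Fin p → Perm D, (∀ j, β j ∈ st G c₀) ∧
      ∀ (m : ℕ) (x y : Fin p → Fin m → D), (∀ j l, x j l ∈ A) → (∀ j l, y j l ∈ A) →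
        (∀ j, Orb G c₀ (x j) (y j)) →
        Orb G c' (fun il : I × Fin m => F il.1 (fun j => β j (x j il.2)))
          (fun il : I × Fin m => F il.1 (fun j => β j (y j il.2))) := by
  obtain ⟨T, hTfin, hT⟩ := hO.finite c' (I × (Fin p → {a // a ∈ A}))
  choose ρ hρ hρT using hT
  have : Finite T := hTfin
  let w : (Fin p → {a // a ∈ A} → D) → (I × (Fin p → {a // a ∈ A}) → D) :=
    fun φ is => F is.1 (fun j => φ j (is.2 j))
  -- representatives of traces
  let tr : Perm D → Finset (D × D) := fun g => (A ×ˢ A).filter (fun ab => g ab.1 = ab.2)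
  let gt : Finset (D × D) → Perm D := fun t =>
    if hex : ∃ g ∈ st G c₀, tr g = t then hex.choose else 1
  have hgt : ∀ g ∈ st G c₀, gt (tr g) ∈ st G c₀ ∧ tr (gt (tr g)) = tr g := by
    intro g hg
    have hex : ∃ g' ∈ st G c₀, tr g' = tr g := ⟨g, hg, rfl⟩
    have : gt (tr g) = hex.choose := dif_pos hex
    rw [this]
    exact hex.choose_spec
  let B : Finset D := A ∪ ((A ×ˢ A).powerset).biUnion (fun t => A.image (gt t))
  obtain ⟨C, hC⟩ := PR.of_FR (hR.const c₀) p T A B
  obtain ⟨h, hh, -, hχ⟩ := hC (fun φ => ⟨_, hρT (w φ)⟩)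
  refine ⟨h, hh, ?_⟩
  intro m x y hx hy hxy
  choose g hg hgxy using hxy
  -- replace g by representatives
  have hg' := fun j => hgt (g j) (hg j)
  have hgxy' : ∀ j l, gt (tr (g j)) (x j l) = y j l := by
    intro j l
    have h1 : ((x j l, y j l) : D × D) ∈ tr (g j) := by
      simp only [tr, Finset.mem_filter, Finset.mem_product]
      exact ⟨⟨hx j l, hy j l⟩, hgxy j l⟩
    rw [← (hg' j).2] at h1
    simp only [tr, Finset.mem_filter, Finset.mem_product] at h1
    exact h1.2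
  have e := hχ h (fun j => h j * gt (tr (g j))) hh
    (fun j => Subgroup.mul_mem _ (hh j) (hg' j).1)
    (fun j a ha => ⟨a, Finset.mem_union_left _ ha, rfl⟩)
    (fun j a ha => ⟨gt (tr (g j)) a, Finset.mem_union_right _ (by
      rw [Finset.mem_biUnion]
      refine ⟨tr (g j), ?_, Finset.mem_image_of_mem _ ha⟩
      rw [Finset.mem_powerset]
      exact Finset.filter_subset _ _), rfl⟩)
  rw [Subtype.mk.injEq] at e
  have o1 : Orb G c' (w fun j a => h j a) (w fun j a => (h j * gt (tr (g j))) a) := by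
    have o3 := Orb.of_mem (hρ (w fun j a => h j a)) (w fun j a => h j a)
    rw [e] at o3
    exact o3.trans (Orb.of_mem (hρ _) _).symm
  have o2 := o1.comp (fun il : I × Fin m =>
    ((il.1, fun j => ⟨x j il.2, hx j il.2⟩) : I × (Fin p → {a // a ∈ A})))
  have e2 : (fun il : I × Fin m => F il.1 (fun j => h j (y j il.2))) =
      fun il : I × Fin m => F il.1 (fun j => h j (gt (tr (g j)) (x j il.2))) := by
    funext il
    congr 1
    funext j
    rw [hgxy']
  rw [e2]
  exact o2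

end Pool.Agent.MP_f99268_lc
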