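import Pool.Agent.Lib.MP_f99268_lc.Defs
import Pool.Agent.Lib.MP_f99268_lc.Hom

/-!
# The automorphism group of a homogeneous ordered Ramsey structure in a finite signature
-/

namespace Pool.Agent.MP_f99268_lc

open Equiv Classical

variable {ι : Type} {ar : ι → ℕ} {D : Type}

/-- The automorphism group. -/
def autG (Δ : Str ι ar D) : Subgroup (Perm D) where
  carrier := {g | IsAut Δ g}
  mul_mem' := fun ha hb => IsAut.mul ha hb
  one_mem' := isAut_one Δ
  inv_mem' := fun ha => IsAut.inv ha

theorem mem_autG {Δ : Str ι ar D} {g : Perm D} : g ∈ autG Δ ↔ IsAut Δ g := Iff.rfl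

/-- The restriction of `f` to `S` is an embedding. -/
def EmbOn (Δ : Str ι ar D) (S : Set D) (f : D → D) : Prop :=
  (∀ a ∈ S, ∀ b ∈ S, f a = f b → a = b) ∧ (∀ a ∈ S, ∀ b ∈ S, Δ.lt (f a) (f b) ↔ Δ.lt a b) ∧
    ∀ i (t : Fin (ar i) → D), (∀ k, t k ∈ S) → (Δ.rel i (fun k => f (t k)) ↔ Δ.rel i t)

theorem Homogeneous.ext {Δ : Str ι ar D} (hΔ : Homogeneous Δ) {S : Set D} (hS : S.Finite)
    {f : D → D} (hf : EmbOn Δ S f) : ∃ g ∈ autG Δ, ∀ a ∈ S, g a = f a := by
  obtain ⟨g, hg, h⟩ := hΔ S hS (fun a => f a)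
    ⟨fun a b hab => Subtype.ext (hf.1 a a.2 b b.2 hab), fun x y => hf.2.1 x x.2 y y.2,
      fun i t => hf.2.2 i (fun k => t k) (fun k => (t k).2)⟩
  exact ⟨g, hg, fun a ha => h ⟨a, ha⟩⟩

theorem olig_autG [Finite ι] {Δ : Str ι ar D} (hlin : IsStrictTotalOrder D Δ.lt)
    (hΔ : Homogeneous Δ) : Olig (autG Δ) := by
  intro c
  let κ : Type := ({a // a ∈ c} → Bool) × ({a // a ∈ c} → Bool) × ({a // a ∈ c} → Bool) ×
    ((i : ι) → (Fin (ar i) → Option {a // a ∈ c}) → Bool)
  let dt : D → κ := fun x => (fun a => decide (x = a), fun a => decide (Δ.lt a x),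
    fun a => decide (Δ.lt x a), fun i s => decide (Δ.rel i (fun k => (s k).elim x (fun a => a))))
  have hfin : Finite κ := by
    have : ∀ i : ι, Finite ((Fin (ar i) → Option {a // a ∈ c}) → Bool) := fun i => inferInstance
    infer_instance
  have key : ∀ x y, dt x = dt y → ∃ g ∈ st (autG Δ) c, g x = y := by
    intro x y hxy
    have h1 := congrArg (fun v : κ => v.1) hxy
    have h2 := congrArg (fun v : κ => v.2.1) hxy
    have h3 := congrArg (fun v : κ => v.2.2.1) hxy
    have h4 := congrArg (fun v : κ => v.2.2.2) hxy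
    have h1' : ∀ a ∈ c, x = a ↔ y = a := fun a ha => by
      have := congrFun h1 ⟨a, ha⟩
      simpa [dt] using this
    have h2' : ∀ a ∈ c, Δ.lt a x ↔ Δ.lt a y := fun a ha => by
      have := congrFun h2 ⟨a, ha⟩
      simpa [dt] using this
    have h3' : ∀ a ∈ c, Δ.lt x a ↔ Δ.lt y a := fun a ha => by
      have := congrFun h3 ⟨a, ha⟩
      simpa [dt] using this
    have h4' : ∀ i (s : Fin (ar i) → Option {a // a ∈ c}),
        Δ.rel i (fun k => (s k).elim x (fun a => a)) ↔
        Δ.rel i (fun k => (s k).elim y (fun a => a)) := fun i s => by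
      have := congrFun (congrFun h4 i) s
      simpa [dt] using this
    let f : D → D := fun a => if a = x then y else a
    have hfx : f x = y := if_pos rfl
    have hfc : ∀ a ∈ c, f a = a := by
      intro a ha
      by_cases hax : a = x
      · have := (h1' a ha).1 hax.symm
        simp only [f, if_pos hax]
        exact this
      · simp [f, hax]
    have hmem : ∀ a ∈ insert x (c : Set D), a = x ∨ (a ≠ x ∧ a ∈ c) := by
      intro a ha
      by_cases hax : a = x
      · exact Or.inl hax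
      · rcases ha with ha | ha
        · exact Or.inl ha
        · exact Or.inr ⟨hax, ha⟩
    have hirr : ∀ a, ¬ Δ.lt a a := fun a => hlin.irrefl a
    obtain ⟨g, hg, hgf⟩ := hΔ.ext (S := insert x (c : Set D))
      ((Finset.finite_toSet c).insert x) (f := f) (by
      refine ⟨?_, ?_, ?_⟩
      · intro a ha b hb hab
        rcases hmem a ha with rfl | ⟨ha1, ha2⟩
        · rcases hmem b hb with rfl | ⟨hb1, hb2⟩
          · rfl
          · rw [hfx, hfc b hb2] at hab
            exact (h1' b hb2).2 hab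
        · rcases hmem b hb with rfl | ⟨hb1, hb2⟩
          · rw [hfx, hfc a ha2] at hab
            exact ((h1' a ha2).2 hab.symm).symm
          · rw [hfc a ha2, hfc b hb2] at hab
            exact hab
      · intro a ha b hb
        rcases hmem a ha with rfl | ⟨ha1, ha2⟩
        · rcases hmem b hb with rfl | ⟨hb1, hb2⟩
          · rw [hfx]
            exact iff_of_false (hirr _) (hirr _)
          · rw [hfx, hfc b hb2]
            exact (h3' b hb2).symm
        · rcases hmem b hb with rfl | ⟨hb1, hb2⟩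
          · rw [hfx, hfc a ha2]
            exact (h2' a ha2).symm
          · rw [hfc a ha2, hfc b hb2]
      · intro i t ht
        let s : Fin (ar i) → Option {a // a ∈ c} := fun k =>
          if h : t k ∈ c ∧ t k ≠ x then some ⟨t k, h.1⟩ else none
        have e1 : (fun k => (s k).elim x (fun a => (a : D))) = t := by
          funext k
          by_cases h : t k ∈ c ∧ t k ≠ x
          · simp [s, h]
          · rcases hmem (t k) (ht k) with h' | ⟨h1, h2⟩
            · simp [s, h']
            · exact absurd ⟨h2, h1⟩ h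
        have e2 : (fun k => (s k).elim y (fun a => (a : D))) = fun k => f (t k) := by
          funext k
          by_cases h : t k ∈ c ∧ t k ≠ x
          · simp [s, h, hfc _ h.1]
          · rcases hmem (t k) (ht k) with h' | ⟨h1, h2⟩
            · simp [s, h', hfx]
            · exact absurd ⟨h2, h1⟩ h
        rw [← e2, ← h4' i s, e1])
    refine ⟨g, mem_st.2 ⟨hg, fun a ha => ?_⟩, ?_⟩
    · rw [hgf a (Set.mem_insert_of_mem _ ha), hfc a ha]
    · rw [hgf x (Set.mem_insert _ _), hfx]
  let rep : {v : κ // ∃ x, dt x = v} → D := fun v => v.2.choose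
  refine ⟨(Set.finite_range rep).toFinset, fun x => ?_⟩
  have h := (⟨dt x, x, rfl⟩ : {v : κ // ∃ x, dt x = v}).2.choose_spec
  obtain ⟨g, hg, hgx⟩ := key x (rep ⟨dt x, x, rfl⟩) h.symm
  refine ⟨g, hg, ?_⟩
  rw [hgx]
  simp

/-- An automorphism that maps a finite set onto itself fixes it pointwise. -/
theorem aut_fix {Δ : Str ι ar D} (hlin : IsStrictTotalOrder D Δ.lt) {g : Perm D}
    (hg : g ∈ autG Δ) {A : Finset D} (hA : ∀ a ∈ A, g a ∈ A) : ∀ a ∈ A, g a = a := by
  have hpow : ∀ a ∈ A, ∀ n : ℕ, (g ^ n) a ∈ A := by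
    intro a ha n
    induction n with
    | zero => simpa using ha
    | succ n ih =>
      rw [pow_succ']
      exact hA _ ih
  intro a ha
  have hlt : ∀ x y, Δ.lt (g x) (g y) ↔ Δ.lt x y := hg.2.1
  have hmono : ∀ r : D → D → Prop, (∀ x y, r (g x) (g y) ↔ r x y) → (∀ x, ¬ r x x) →
      (∀ x y z, r x y → r y z → r x z) → ¬ r a (g a) := by
    intro r hr hirr htr h
    have h1 : ∀ n : ℕ, r ((g ^ n) a) ((g ^ (n + 1)) a) := by
      intro n
      induction n with
      | zero => simpa using h
      | succ n ih =>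
        rw [pow_succ' g n, pow_succ' g (n + 1)]
        exact (hr _ _).2 ih
    have h2 : ∀ m n : ℕ, m < n → r ((g ^ m) a) ((g ^ n) a) := by
      intro m n hmn
      induction n, hmn using Nat.le_induction with
      | base => exact h1 m
      | succ n _ ih => exact htr _ _ _ ih (h1 n)
    have hinj : Function.Injective (fun n : ℕ => (⟨(g ^ n) a, hpow a ha n⟩ : {x // x ∈ A})) := by
      intro m n hmn
      simp only [Subtype.mk.injEq] at hmn
      rcases lt_trichotomy m n with h | h | h
      · have := h2 m n h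
        rw [hmn] at this
        exact absurd this (hirr _)
      · exact h
      · have := h2 n m h
        rw [hmn] at this
        exact absurd this (hirr _)
    exact not_injective_infinite_finite _ hinj
  rcases hlin.trichotomous a (g a) with h
  by_contra hne
  have h1 := hmono Δ.lt hlt (fun x => hlin.irrefl x) (fun x y z => hlin.trans x y z)
  have h2 := hmono (fun x y => Δ.lt y x) (fun x y => hlt y x) (fun x => hlin.irrefl x)
    (fun x y z h1 h2 => hlin.trans z y x h2 h1)
  exact hne (h h1 h2).symm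

theorem fr_autG {Δ : Str ι ar D} (hlin : IsStrictTotalOrder D Δ.lt)
    (hΔ : Homogeneous Δ) (hR : RamseyProperty Δ) : FR (autG Δ) Bool := by
  intro A B
  obtain ⟨C, hC⟩ := hR A B
  refine ⟨C, fun χ => ?_⟩
  let χ' : Finset D → Bool := fun S =>
    if h : ∃ g ∈ autG Δ, A.image g = S then χ (fun a => h.choose a) else true
  have hχ' : ∀ g ∈ autG Δ, χ' (A.image g) = χ (fun a => g a) := by
    intro g hg
    have hex : ∃ g' ∈ autG Δ, A.image g' = A.image g := ⟨g, hg, rfl⟩
    have e1 : χ' (A.image g) = χ (fun a => hex.choose a) := dif_pos hex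
    rw [e1]
    congr 1
    funext a
    obtain ⟨h1, h2⟩ := hex.choose_spec
    set g' := hex.choose
    have := aut_fix hlin ((autG Δ).mul_mem ((autG Δ).inv_mem hg) h1) (A := A) (fun a ha => by
      have : g' a ∈ A.image g := by
        rw [← h2]
        exact Finset.mem_image_of_mem _ ha
      obtain ⟨b, hb, e⟩ := Finset.mem_image.1 this
      show g⁻¹ (g' a) ∈ A
      rw [← e]
      simpa using hb) a a.2
    have h3 : g⁻¹ (g' a) = a := this
    rw [Perm.inv_eq_iff_eq] at h3
    exact h3
  obtain ⟨B', hB'C, ⟨f, hfb, hfe⟩, hmono⟩ := hC χ'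
  obtain ⟨h, hh, hhf⟩ := hΔ (B : Set D) (Finset.finite_toSet B) (fun b => (f b : D))
    ⟨fun a b hab => hfb.1 (Subtype.ext hab), fun x y => hfe.2.1 x y, fun i t => hfe.2.2 i t⟩
  have himg : ∀ b ∈ B, h b ∈ B' := fun b hb => by
    have := hhf ⟨b, hb⟩
    simp only at this
    rw [this]
    exact (f ⟨b, hb⟩).2
  refine ⟨h, hh, fun b hb => hB'C (himg b hb), ?_⟩
  intro g hg g' hg' hgB hg'B
  rw [← hχ' g hg, ← hχ' g' hg']
  have hiso : ∀ g ∈ autG Δ, IsoSub Δ (A : Set D) ((A.image g : Finset D) : Set D) := by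
    intro g hg
    refine ⟨fun a => ⟨g a, Finset.mem_coe.2 (Finset.mem_image_of_mem _ a.2)⟩, ⟨?_, ?_⟩, ?_, ?_, ?_⟩
    · intro a b hab
      simp only [Subtype.mk.injEq] at hab
      exact Subtype.ext (g.injective hab)
    · rintro ⟨b, hb⟩
      obtain ⟨a, ha, e⟩ := Finset.mem_image.1 (Finset.mem_coe.1 hb)
      exact ⟨⟨a, ha⟩, Subtype.ext e⟩
    · intro a b hab
      simp only [Subtype.mk.injEq] at hab
      exact Subtype.ext (g.injective hab)
    · intro x y
      exact hg.2.1 x y
    · intro i t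
      exact hg.2.2 i (fun k => t k)
  apply hmono _ _ _ _ (hiso g hg) (hiso g' hg')
  · intro y hy
    obtain ⟨a, ha, rfl⟩ := Finset.mem_image.1 hy
    obtain ⟨b, hb, e⟩ := hgB a ha
    rw [e]
    exact himg b hb
  · intro y hy
    obtain ⟨a, ha, rfl⟩ := Finset.mem_image.1 hy
    obtain ⟨b, hb, e⟩ := hg'B a ha
    rw [e]
    exact himg b hb

/-- Types of tuples are determined by the types of their short subtuples. -/
theorem orb_local {Δ : Str ι ar D} (hΔ : Homogeneous Δ) {r : ℕ} (hr : ∀ i, ar i ≤ r)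
    (hr2 : 2 ≤ r) {α : Type} [Finite α] (x y : α → D)
    (h : ∀ s : Fin r → α, Orb (autG Δ) ∅ (fun k => x (s k)) (fun k => y (s k))) :
    Orb (autG Δ) ∅ x y := by
  rcases isEmpty_or_nonempty α with hα | ⟨⟨l0⟩⟩
  · exact ⟨1, Subgroup.one_mem _, fun i => hα.elim i⟩
  have hpair : ∀ l l' : α, ∃ g ∈ autG Δ, g (x l) = y l ∧ g (x l') = y l' := by
    intro l l'
    obtain ⟨g, hg, h1⟩ := h (fun k => if k.1 = 0 then l else l')
    refine ⟨g, st_le hg, ?_, ?_⟩
    · simpa using h1 ⟨0, by omega⟩
    · simpa using h1 ⟨1, by omega⟩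
  have hinj : ∀ l l', x l = x l' → y l = y l' := by
    intro l l' e
    obtain ⟨g, -, h1, h2⟩ := hpair l l'
    rw [← h1, ← h2, e]
  let f : D → D := fun a => if hex : ∃ l, x l = a then y hex.choose else a
  have hf : ∀ l, f (x l) = y l := by
    intro l
    have hex : ∃ l', x l' = x l := ⟨l, rfl⟩
    have e : f (x l) = y hex.choose := dif_pos hex
    rw [e]
    exact hinj _ _ hex.choose_spec
  obtain ⟨g, hg, hgf⟩ := hΔ.ext (S := Set.range x) (Set.finite_range x) (f := f) (by
    refine ⟨?_, ?_, ?_⟩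
    · rintro _ ⟨l, rfl⟩ _ ⟨l', rfl⟩ hab
      rw [hf, hf] at hab
      obtain ⟨g, -, h1, h2⟩ := hpair l l'
      rw [← h1, ← h2] at hab
      exact g.injective hab
    · rintro _ ⟨l, rfl⟩ _ ⟨l', rfl⟩
      rw [hf, hf]
      obtain ⟨g, hg, h1, h2⟩ := hpair l l'
      rw [← h1, ← h2]
      exact hg.2.1 _ _
    · intro i t ht
      choose l hl using ht
      obtain ⟨g, hg, h1⟩ := h (fun k => if hk : k.1 < ar i then l ⟨k.1, hk⟩ else l0)
      have h2 : ∀ k : Fin (ar i), g (x (l k)) = y (l k) := by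
        intro k
        have := h1 ⟨k.1, lt_of_lt_of_le k.2 (hr i)⟩
        simpa using this
      have e1 : t = fun k => x (l k) := by
        funext k
        exact (hl k).symm
      have e2 : (fun k => f (t k)) = fun k => g (x (l k)) := by
        funext k
        rw [e1]
        simp only
        rw [hf, h2]
      rw [e2, e1]
      exact (st_le hg).2.2 i _)
  refine ⟨g, by rwa [st_empty], fun l => ?_⟩
  rw [hgf (x l) ⟨l, rfl⟩, hf]

theorem fd_autG [Finite ι] {Δ : Str ι ar D} (hlin : IsStrictTotalOrder D Δ.lt)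
    (hΔ : Homogeneous Δ) : FD (autG Δ) := by
  obtain ⟨r, hr, hr2⟩ : ∃ r, (∀ i, ar i ≤ r) ∧ 2 ≤ r := by
    obtain ⟨M, hM⟩ := (Set.finite_range ar).bddAbove
    exact ⟨max M 2, fun i => le_trans (hM ⟨i, rfl⟩) (le_max_left _ _), le_max_right _ _⟩
  intro k
  obtain ⟨T, hT⟩ := (olig_autG hlin hΔ).fin ∅ r
  refine ⟨T.biUnion (fun t => Finset.univ.image t), fun h h' hh hh' hA m x => ?_⟩
  apply orb_local hΔ hr hr2
  intro s
  choose g hg hgT using fun j => hT (fun l => x j (s l))
  have h1 : ∀ j, Orb (autG Δ) ∅ (fun l => x j (s l)) (fun l => g j (x j (s l))) :=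
    fun j => Orb.of_mem (hg j) _
  have h2 := hh r (fun j l => x j (s l)) (fun j l => g j (x j (s l))) h1
  have h3 := hh' r (fun j l => x j (s l)) (fun j l => g j (x j (s l))) h1
  have h4 := hA r (fun j l => g j (x j (s l))) (fun j l => by
    rw [Finset.mem_biUnion]
    exact ⟨_, hgT j, Finset.mem_image.2 ⟨l, Finset.mem_univ _, rfl⟩⟩)
  exact (h2.trans h4).trans h3.symm

end Pool.Agent.MP_f99268_lc
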