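import Pool.Agent.Lib.MP_f99268_lc.Canon

/-!
# The value of a canonical function with finitely many constants
-/

namespace Pool.Agent.MP_f99268_lc

open Equiv Classical Filter

variable {D : Type}

/-- A homomorphism to projections from the clone of the members of `C` that are canonical over `c`,
which does not distinguish functions with the same action on types. -/
structure HomC (G : Subgroup (Perm D)) (C : (k : ℕ) → Set ((Fin k → D) → D))
    (c : Finset D) where
  ξ : (k : ℕ) → ((Fin (k + 1) → D) → D) → Fin (k + 1)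
  proj : ∀ k (i : Fin (k + 1)), ξ k (fun x => x i) = i
  comp : ∀ n m (f : (Fin (n + 1) → D) → D) (g : Fin (n + 1) → (Fin (m + 1) → D) → D),
    f ∈ C (n + 1) → Can G c c f → (∀ i, g i ∈ C (m + 1)) → (∀ i, Can G c c (g i)) →
    ξ m (fun x => f (fun i => g i x)) = ξ m (g (ξ n f))
  inv : ∀ k (f f' : (Fin (k + 1) → D) → D), f ∈ C (k + 1) → Can G c c f → f' ∈ C (k + 1) →
    Can G c c f' →
    (∀ (m : ℕ) (x : Fin (k + 1) → Fin m → D),
      Orb G c (fun l => f (fun j => x j l)) (fun l => f' (fun j => x j l))) → ξ k f = ξ k f'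

/-- The data we work with. -/
structure Ctx (D : Type) [Countable D] where
  G : Subgroup (Perm D)
  C : (k : ℕ) → Set ((Fin k → D) → D)
  hR : FR G Bool
  hO : Olig G
  hC : IsClone G C
  hom : ∀ c : Finset D, HomC G C c

/-- An ultrafilter on the finite subsets of `D`. -/
noncomputable def uf (D : Type) : Ultrafilter (Finset D) := Ultrafilter.of atTop

theorem uf_superset (c : Finset D) : ∀ᶠ c' in (uf D : Filter (Finset D)), c ⊆ c' :=
  (Ultrafilter.of_le (f := (atTop : Filter (Finset D)))) (eventually_ge_atTop c)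

theorem uf_exists_val {n : ℕ} (f : Finset D → Fin n) :
    ∃ i, ∀ᶠ c in (uf D : Filter (Finset D)), f c = i := by
  by_contra hcon
  push Not at hcon
  have h1 : ∀ i, ∀ᶠ c in (uf D : Filter (Finset D)), f c ≠ i := fun i => hcon i
  have h2 : ∀ᶠ c in (uf D : Filter (Finset D)), ∀ i, f c ≠ i := by
    rw [eventually_all]
    exact h1
  obtain ⟨c, hc⟩ := h2.exists
  exact hc _ rfl

namespace Ctx

variable [Countable D] (X : Ctx D)

theorem exists_w (c : Finset D) : ∃ e : D → D, Emb X.G e ∧ CanU X.G ∅ c e := by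
  obtain ⟨e, h1, h2, -⟩ := exists_emb X.hR X.hO ∅ c 1 X.G.one_mem (by simp)
  exact ⟨e, h1, h2⟩

/-- A self-embedding whose image is in canonical position with respect to `c`. -/
noncomputable def w (c : Finset D) : D → D := (X.exists_w c).choose

theorem w_emb (c : Finset D) : Emb X.G (X.w c) := (X.exists_w c).choose_spec.1

theorem w_can (c : Finset D) : CanU X.G ∅ c (X.w c) := (X.exists_w c).choose_spec.2

/-- The value of a function. -/
noncomputable def val (k : ℕ) (h : (Fin (k + 1) → D) → D) : Fin (k + 1) :=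
  (uf_exists_val fun c => (X.hom c).ξ k (fun x => X.w c (h x))).choose

theorem val_spec (k : ℕ) (h : (Fin (k + 1) → D) → D) :
    ∀ᶠ c in (uf D : Filter (Finset D)), (X.hom c).ξ k (fun x => X.w c (h x)) = X.val k h :=
  (uf_exists_val fun c => (X.hom c).ξ k (fun x => X.w c (h x))).choose_spec

theorem val_eq {k : ℕ} {h : (Fin (k + 1) → D) → D} {i : Fin (k + 1)}
    (hi : ∀ᶠ c in (uf D : Filter (Finset D)), (X.hom c).ξ k (fun x => X.w c (h x)) = i) :
    X.val k h = i := by
  obtain ⟨c, hc1, hc2⟩ := ((X.val_spec k h).and hi).exists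
  rw [← hc1, hc2]

theorem val_congr {k : ℕ} {h h' : (Fin (k + 1) → D) → D} {c c' : Finset D}
    (hC : h ∈ X.C (k + 1)) (hC' : h' ∈ X.C (k + 1)) (hcan : Can X.G c ∅ h)
    (hcan' : Can X.G c' ∅ h')
    (hh : ∀ (m : ℕ) (x : Fin (k + 1) → Fin m → D),
      Orb X.G ∅ (fun l => h (fun j => x j l)) (fun l => h' (fun j => x j l))) :
    X.val k h = X.val k h' := by
  apply X.val_eq
  filter_upwards [X.val_spec k h', uf_superset c, uf_superset c'] with d hd hcd hcd'
  rw [← hd]
  apply (X.hom d).inv
  · exact X.hC.emb_comp hC (X.w_emb d)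
  · exact ((X.w_can d).comp_can hcan).mono hcd subset_rfl
  · exact X.hC.emb_comp hC' (X.w_emb d)
  · exact ((X.w_can d).comp_can hcan').mono hcd' subset_rfl
  · intro m x
    exact X.w_can d m _ _ (hh m x)

/-- Composition. -/
theorem val_comp {n m : ℕ} {h : (Fin (n + 1) → D) → D} {K : Fin (n + 1) → (Fin (m + 1) → D) → D}
    {c₀ c : Finset D} (hh : h ∈ X.C (n + 1)) (hcan : Can X.G c ∅ h)
    (hK : ∀ i, K i ∈ X.C (m + 1)) (hKcan : ∀ i, Can X.G c₀ c (K i)) :
    X.val m (fun x => h (fun i => K i x)) = X.val m (K (X.val n h)) := by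
  apply X.val_eq
  filter_upwards [X.val_spec n h, X.val_spec m (K (X.val n h)), uf_superset c, uf_superset c₀]
    with d hd1 hd2 hcd hc₀d
  -- an embedding over c which is canonical over d
  obtain ⟨v, hv1, hv2, hv3⟩ : ∃ v : D → D, Emb X.G v ∧ CanU X.G c d v ∧
      ∀ (α : Type) [Finite α] (x : α → D), Orb X.G c x (fun i => v (x i)) := by
    obtain ⟨K', h1, h2⟩ := canonise_one X.hR X.hO c d (fun x : Fin 1 → D => x 0)
    refine ⟨fun a => K' (fun _ => a), ?_, ?_, ?_⟩
    · intro A
      obtain ⟨β, hβ, η, hη, h⟩ := h1 A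
      exact ⟨η * β 0, Subgroup.mul_mem _ (st_le hη) (st_le (hβ 0)),
        fun a ha => h (fun _ => a) (fun _ => ha)⟩
    · intro m x y hxy
      exact h2 m (fun _ => x) (fun _ => y) (fun _ => hxy)
    · intro α _ x
      obtain ⟨β, hβ, η, hη, h⟩ := h1 (Set.finite_range x).toFinset
      refine ⟨η * β 0, Subgroup.mul_mem _ (st_mono hcd hη) (hβ 0), fun i => ?_⟩
      exact (h (fun _ => x i) (fun _ => by simp)).symm
  have a1 : (X.hom d).ξ m (fun x => X.w d (h (fun i => K i x))) =
      (X.hom d).ξ m (fun x => (fun y => X.w d (h y)) (fun i => (fun x => v (K i x)) x)) := by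
    apply (X.hom d).inv
    · exact X.hC.emb_comp (X.hC.comp _ _ _ _ hh hK) (X.w_emb d)
    · exact ((X.w_can d).comp_can (hcan.comp_can hKcan)).mono hc₀d subset_rfl
    · exact X.hC.comp _ _ _ _ (X.hC.emb_comp hh (X.w_emb d))
        (fun i => X.hC.emb_comp (hK i) hv1)
    · have b1 : Can X.G c d (fun y => X.w d (h y)) := (X.w_can d).comp_can hcan
      have b2 : ∀ i, Can X.G c₀ d (fun x => v (K i x)) := fun i => hv2.comp_can (hKcan i)
      exact ((b1.mono hcd subset_rfl).comp_can b2).mono hc₀d subset_rfl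
    · intro p x
      apply X.w_can d
      apply hcan
      intro i
      exact hv3 (Fin p) _
  have a2 : (X.hom d).ξ m
      (fun x => (fun y => X.w d (h y)) (fun i => (fun x => v (K i x)) x)) =
      (X.hom d).ξ m (fun x => v (K (X.val n h) x)) := by
    have := (X.hom d).comp n m (fun y => X.w d (h y)) (fun i x => v (K i x))
      (X.hC.emb_comp hh (X.w_emb d)) (((X.w_can d).comp_can hcan).mono hcd subset_rfl)
      (fun i => X.hC.emb_comp (hK i) hv1)
      (fun i => (hv2.comp_can (hKcan i)).mono hc₀d subset_rfl)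
    rw [hd1] at this
    exact this
  have a3 : (X.hom d).ξ m (fun x => v (K (X.val n h) x)) =
      (X.hom d).ξ m (fun x => X.w d (v (K (X.val n h) x))) := by
    have := (X.hom d).comp 0 m (fun y : Fin 1 → D => X.w d (y 0))
      (fun _ x => v (K (X.val n h) x))
      (X.hC.emb_comp (X.hC.proj 1 0) (X.w_emb d))
      (((X.w_can d).can 0).mono (Finset.empty_subset _) subset_rfl)
      (fun i => X.hC.emb_comp (hK _) hv1)
      (fun i => (hv2.comp_can (hKcan _)).mono hc₀d subset_rfl)
    exact this.symm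
  have a4 : (X.hom d).ξ m (fun x => X.w d (v (K (X.val n h) x))) =
      (X.hom d).ξ m (fun x => X.w d (K (X.val n h) x)) := by
    apply (X.hom d).inv
    · exact X.hC.emb_comp (X.hC.emb_comp (hK _) hv1) (X.w_emb d)
    · have b1 := hv2.comp_can (hKcan (X.val n h))
      exact ((X.w_can d).comp_can (b1.mono subset_rfl (Finset.empty_subset _))).mono hc₀d
        subset_rfl
    · exact X.hC.emb_comp (hK _) (X.w_emb d)
    · exact ((X.w_can d).comp_can ((hKcan _).mono subset_rfl (Finset.empty_subset _))).mono hc₀d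
        subset_rfl
    · intro p x
      apply X.w_can d
      exact (hv3 (Fin p) _).symm.to_empty
  rw [a1, a2, a3, a4, hd2]

/-- The value of a projection composed with a canonical embedding. -/
theorem val_emb_proj {k : ℕ} {c₀ c : Finset D} {u : D → D} (hu : Emb X.G u)
    (hcan : CanU X.G c₀ c u) (i : Fin (k + 1)) :
    X.val k (fun x : Fin (k + 1) → D => u (x i)) = i := by
  apply X.val_eq
  filter_upwards [uf_superset c₀] with d hd
  have := (X.hom d).comp 0 k (fun y : Fin 1 → D => X.w d (u (y 0))) (fun _ x => x i)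
    (X.hC.emb_comp (X.hC.emb_comp (X.hC.proj 1 0) hu) (X.w_emb d))
    (((X.w_can d).comp_can ((hcan.can 0).mono subset_rfl (Finset.empty_subset _))).mono hd
      subset_rfl)
    (fun _ => X.hC.proj _ _) (fun _ => Can.proj _ _ _)
  refine this.trans ?_
  exact (X.hom d).proj k i

/-- Box independence. -/
theorem val_box {k : ℕ} {c₀ c : Finset D} {h : (Fin (k + 1) → D) → D} {u : Fin (k + 1) → D → D}
    (hh : h ∈ X.C (k + 1)) (hcan : Can X.G c ∅ h) (hu : ∀ j, Emb X.G (u j))
    (hucan : ∀ j, CanU X.G c₀ c (u j)) :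
    X.val k (fun x => h (fun j => u j (x j))) = X.val k h := by
  have := X.val_comp (m := k) (K := fun j x => u j (x j)) hh hcan
    (fun j => X.hC.emb_comp (X.hC.proj _ j) (hu j)) (fun j => (hucan j).can j)
  rw [this]
  exact X.val_emb_proj (hu _) (hucan _) _

end Ctx

end Pool.Agent.MP_f99268_lc
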